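import Pool.Agent.H857.WT.Core

/-!
# WT W20: elementary sums over the pairs `(D, y)` with `D y² ≤ X`
-/

set_option autoImplicit false

namespace Pool.Agent.H120.WT20

open Pool.Agent.H857.WT

theorem cnt_le {X D : ℕ} (hD : 1 ≤ D) :
    (((Finset.Icc 1 X).filter (fun y => D * y ^ 2 ≤ X)).card : ℝ) ≤
      Real.sqrt X * (Real.sqrt D)⁻¹ := by
  have hD0 : (0 : ℝ) < D := by exact_mod_cast hD
  have hs : 0 < Real.sqrt D := Real.sqrt_pos.2 hD0
  have hsub : (Finset.Icc 1 X).filter (fun y => D * y ^ 2 ≤ X) ⊆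
      Finset.Icc 1 ⌊Real.sqrt X * (Real.sqrt D)⁻¹⌋₊ := by
    intro y hy
    rw [Finset.mem_filter, Finset.mem_Icc] at hy
    rw [Finset.mem_Icc]
    refine ⟨hy.1.1, Nat.le_floor ?_⟩
    rw [← div_eq_mul_inv, le_div_iff₀ hs]
    apply Real.le_sqrt_of_sq_le
    rw [mul_pow, Real.sq_sqrt hD0.le]
    have h1 : ((D * y ^ 2 : ℕ) : ℝ) ≤ X := by exact_mod_cast hy.2
    push_cast at h1
    linarith
  calc (((Finset.Icc 1 X).filter (fun y => D * y ^ 2 ≤ X)).card : ℝ)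
      ≤ ((Finset.Icc 1 ⌊Real.sqrt X * (Real.sqrt D)⁻¹⌋₊).card : ℝ) := by
        exact_mod_cast Finset.card_le_card hsub
    _ = (⌊Real.sqrt X * (Real.sqrt D)⁻¹⌋₊ : ℝ) := by rw [Nat.card_Icc, Nat.add_sub_cancel]
    _ ≤ Real.sqrt X * (Real.sqrt D)⁻¹ := Nat.floor_le (by positivity)

/-- the facts about two consecutive square roots -/
theorem sq_facts (n : ℕ) (hn : 1 ≤ n) : ∃ a b : ℝ, a = Real.sqrt n ∧
    b = Real.sqrt ((n + 1 : ℕ) : ℝ) ∧ 0 < a ∧ 0 < b ∧ a ≤ b ∧ b ^ 2 = a ^ 2 + 1 := by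
  have hn0 : (0 : ℝ) < n := by exact_mod_cast hn
  refine ⟨_, _, rfl, rfl, Real.sqrt_pos.2 hn0, Real.sqrt_pos.2 (by push_cast; linarith), ?_, ?_⟩
  · exact Real.sqrt_le_sqrt (by push_cast; linarith)
  · rw [Real.sq_sqrt (Nat.cast_nonneg _), Real.sq_sqrt (Nat.cast_nonneg _)]
    push_cast
    ring

theorem sum1 (X : ℕ) : ∑ D ∈ Finset.Icc 1 X, (Real.sqrt D)⁻¹ ≤ 2 * Real.sqrt X := by
  induction X with
  | zero => simp
  | succ n ih =>
    rw [Finset.sum_Icc_succ_top (by omega)]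
    rcases Nat.eq_zero_or_pos n with h0 | h0
    · subst h0
      norm_num
    · obtain ⟨a, b, ha, hb, ha0, hb0, hab, hsq⟩ := sq_facts n h0
      rw [← ha] at ih
      rw [← hb]
      have h1 : b⁻¹ ≤ 2 * (b - a) := by
        rw [inv_le_iff_one_le_mul₀ hb0]
        nlinarith
      linarith

theorem sum3 (X : ℕ) (hX : 1 ≤ X) :
    ∑ D ∈ Finset.Icc 1 X, (Real.sqrt D)⁻¹ ^ 3 ≤ 3 - 2 * (Real.sqrt X)⁻¹ := by
  induction X, hX using Nat.le_induction with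
  | base =>
    rw [Finset.Icc_self, Finset.sum_singleton, Nat.cast_one, Real.sqrt_one]
    norm_num
  | succ n hn ih =>
    rw [Finset.sum_Icc_succ_top (by omega)]
    obtain ⟨a, b, ha, hb, ha0, hb0, hab, hsq⟩ := sq_facts n hn
    rw [← ha] at ih
    rw [← hb]
    have h1 : b⁻¹ ^ 3 ≤ 2 * a⁻¹ - 2 * b⁻¹ := by
      have h2 : 2 * a⁻¹ - 2 * b⁻¹ - b⁻¹ ^ 3 = (2 * b ^ 2 * (b - a) - a) / (a * b ^ 3) := by
        field_simp
      have h3 : 0 ≤ 2 * b ^ 2 * (b - a) - a := by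
        have h4 : (b - a) * (b + a) = 1 := by linarith [sq_sub_sq b a, mul_comm (b - a) (b + a)]
        have h5 : 0 ≤ b - a := by linarith
        have h6 : 1 ≤ (b - a) * (2 * b) := by nlinarith
        have h7 : b ≤ b * ((b - a) * (2 * b)) := by nlinarith
        nlinarith
      have h4 : 0 ≤ 2 * a⁻¹ - 2 * b⁻¹ - b⁻¹ ^ 3 := by
        rw [h2]
        positivity
      linarith
    linarith

theorem harm (X : ℕ) : ∑ D ∈ Finset.Icc 1 X, (Real.sqrt D)⁻¹ ^ 2 ≤ 1 + Real.log X := by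
  have h := harmonic_le_one_add_log X
  rw [harmonic_eq_sum_Icc] at h
  push_cast at h
  refine le_trans (le_of_eq ?_) h
  refine Finset.sum_congr rfl fun D _ => ?_
  rw [inv_pow, Real.sq_sqrt (Nat.cast_nonneg _)]

theorem w20 : W20 := by
  refine ⟨3, by norm_num, fun X hX => ?_⟩
  have hX0 : (0 : ℝ) ≤ X := Nat.cast_nonneg _
  have hs0 : 0 ≤ Real.sqrt X := Real.sqrt_nonneg _
  have key : ∀ f : ℕ → ℝ, (∀ D, 1 ≤ D → 0 ≤ f D) →
      ∑ D ∈ Finset.Icc 1 X, ∑ _y ∈ Finset.Icc 1 X with D * _y ^ 2 ≤ X, f D ≤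
        Real.sqrt X * ∑ D ∈ Finset.Icc 1 X, (Real.sqrt D)⁻¹ * f D := by
    intro f hf
    rw [Finset.mul_sum]
    refine Finset.sum_le_sum fun D hD => ?_
    rw [Finset.mem_Icc] at hD
    rw [Finset.sum_const, nsmul_eq_mul, ← mul_assoc]
    exact mul_le_mul_of_nonneg_right (cnt_le hD.1) (hf D hD.1)
  refine ⟨?_, ?_, ?_⟩
  · have h1 := key (fun _ => 1) (fun _ _ => zero_le_one)
    simp only [mul_one] at h1
    have h2 := mul_le_mul_of_nonneg_left (sum1 X) hs0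
    have h3 : Real.sqrt X * (2 * Real.sqrt X) = 2 * X := by
      rw [mul_left_comm, Real.mul_self_sqrt hX0]
    linarith
  · have h1 := key (fun D => (Real.sqrt D)⁻¹) (fun _ _ => by positivity)
    have h2 : ∀ D : ℕ, (Real.sqrt D)⁻¹ * (Real.sqrt D)⁻¹ = (Real.sqrt D)⁻¹ ^ 2 :=
      fun D => (sq _).symm
    simp only [h2] at h1
    have h3 := mul_le_mul_of_nonneg_left (harm X) hs0
    have h4 : 0 ≤ Real.sqrt X * (1 + Real.log X) := by
      have : 0 ≤ Real.log X := Real.log_natCast_nonneg X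
      positivity
    linarith
  · intro r hr
    have h1 := key (fun D => (Real.sqrt D)⁻¹ ^ r) (fun _ _ => by positivity)
    have h2 : ∑ D ∈ Finset.Icc 1 X, (Real.sqrt D)⁻¹ * (Real.sqrt D)⁻¹ ^ r ≤
        ∑ D ∈ Finset.Icc 1 X, (Real.sqrt D)⁻¹ ^ 3 := by
      refine Finset.sum_le_sum fun D hD => ?_
      rw [Finset.mem_Icc] at hD
      rw [← pow_succ']
      have h3 : (1 : ℝ) ≤ Real.sqrt D := by
        rw [Real.one_le_sqrt]
        exact_mod_cast hD.1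
      exact pow_le_pow_of_le_one (by positivity) (inv_le_one_of_one_le₀ h3) (by omega)
    have h3 := sum3 X hX
    have h4 : 0 ≤ (Real.sqrt X)⁻¹ := by positivity
    have h5 : ∑ D ∈ Finset.Icc 1 X, (Real.sqrt D)⁻¹ * (Real.sqrt D)⁻¹ ^ r ≤ 3 := by linarith
    have h6 := mul_le_mul_of_nonneg_left h5 hs0
    linarith

end Pool.Agent.H120.WT20
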