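import Pool.Agent.H857.WT.Core

/-!
# The roots of the self-reciprocal polynomials with small coefficients
-/

set_option autoImplicit false

namespace Pool.Agent.H122.WT1

open Module Polynomial Pool.Agent.W521.Descent Pool.Agent.W521.Density Pool.Agent.W521.Count
  Pool.Agent.X297.UB Pool.Agent.H857.PB Pool.Agent.H857.PA Pool.Agent.H857.HK Pool.Agent.H857.EF
  Pool.Agent.H857.WT

/-- the lower part of the polynomial -/
noncomputable def low (k : ℕ) (q : ℂ) (u v : Fin k → ℂ) (b : ℂ) : ℂ[X] :=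
  ∑ j : Fin k, (C (u j) * X ^ (2 * k + 1 - (j : ℕ)) +
    C (q ^ (k - (j : ℕ)) * v j) * X ^ ((j : ℕ) + 1)) + C b * X ^ (k + 1) + C (q ^ (k + 1))

theorem hpoly_eq (k : ℕ) (q : ℂ) (u v : Fin k → ℂ) (b : ℂ) :
    hpoly k q u v b = X ^ (2 * k + 2) + low k q u v b := by
  unfold hpoly low
  ring

theorem low_degree (k : ℕ) (q : ℂ) (u v : Fin k → ℂ) (b : ℂ) :
    (low k q u v b).degree < ((2 * k + 2 : ℕ) : WithBot ℕ) := by
  have key : ∀ (c : ℂ) (m : ℕ), m < 2 * k + 2 → C c * X ^ m ∈ degreeLT ℂ (2 * k + 2) := by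
    intro c m hm
    rw [mem_degreeLT]
    refine lt_of_le_of_lt (degree_C_mul_X_pow_le m c) ?_
    exact_mod_cast hm
  rw [← mem_degreeLT]
  unfold low
  refine Submodule.add_mem _ (Submodule.add_mem _ (Submodule.sum_mem _ fun j _ => ?_) ?_) ?_
  · have := j.2
    exact Submodule.add_mem _ (key _ _ (by omega)) (key _ _ (by omega))
  · exact key _ _ (by omega)
  · have := key (q ^ (k + 1)) 0 (by omega)
    rwa [pow_zero, mul_one] at this

/-- the real function whose zeros are the arguments of the roots -/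
noncomputable def Gf (k : ℕ) (r : ℝ) (a : Fin k → ℂ) (b t : ℝ) : ℝ :=
  2 * Real.cos ((k + 1) * t) + (∑ j : Fin k, 2 * (a j * Complex.exp (((k : ℝ) - (j : ℕ) : ℝ) * t *
    Complex.I)).re / r ^ ((j : ℕ) + 1) + b / r ^ (k + 1))

theorem Gf_cont (k : ℕ) (r : ℝ) (a : Fin k → ℂ) (b : ℝ) : Continuous (Gf k r a b) := by
  unfold Gf
  refine Continuous.add (by fun_prop) (Continuous.add ?_ continuous_const)
  refine continuous_finsetSum _ fun j _ => ?_
  refine Continuous.div_const (continuous_const.mul (Complex.continuous_re.comp ?_)) _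
  fun_prop

theorem bound {k : ℕ} {r : ℝ} (hr : 0 < r) {a : Fin k → ℂ} {b : ℝ}
    (ha : ∀ j, ((k : ℝ) + 1) * ‖a j‖ ≤ r ^ ((j : ℕ) + 1)) (hb : ((k : ℝ) + 1) * |b| ≤ r ^ (k + 1))
    (t : ℝ) : |Gf k r a b t - 2 * Real.cos ((k + 1) * t)| < 2 := by
  have hk : (0 : ℝ) < (k : ℝ) + 1 := by positivity
  have h1 : ∀ j : Fin k, |2 * (a j * Complex.exp (((k : ℝ) - (j : ℕ) : ℝ) * t *
      Complex.I)).re / r ^ ((j : ℕ) + 1)| ≤ 2 / ((k : ℝ) + 1) := by
    intro j
    have hrj : 0 < r ^ ((j : ℕ) + 1) := pow_pos hr _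
    rw [abs_div, abs_of_pos hrj, div_le_div_iff₀ hrj hk, abs_mul, abs_two]
    have h2 : |(a j * Complex.exp (((k : ℝ) - (j : ℕ) : ℝ) * t * Complex.I)).re| ≤ ‖a j‖ := by
      refine (Complex.abs_re_le_norm _).trans (le_of_eq ?_)
      rw [norm_mul]
      have h3 : ((((k : ℝ) - (j : ℕ) : ℝ) : ℂ) * (t : ℂ) * Complex.I) =
          (((((k : ℝ) - (j : ℕ)) * t : ℝ)) : ℂ) * Complex.I := by push_cast; ring
      rw [h3, Complex.norm_exp_ofReal_mul_I, mul_one]
    have h4 := ha j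
    have h5 := mul_le_mul_of_nonneg_right h2 hk.le
    linarith
  have h2 : |∑ j : Fin k, 2 * (a j * Complex.exp (((k : ℝ) - (j : ℕ) : ℝ) * t *
      Complex.I)).re / r ^ ((j : ℕ) + 1)| ≤ k * (2 / ((k : ℝ) + 1)) := by
    refine (Finset.abs_sum_le_sum_abs _ _).trans ?_
    refine (Finset.sum_le_sum fun j _ => h1 j).trans (le_of_eq ?_)
    rw [Finset.sum_const, Finset.card_univ, Fintype.card_fin, nsmul_eq_mul]
  have h3 : |b / r ^ (k + 1)| ≤ 1 / ((k : ℝ) + 1) := by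
    have hrj : 0 < r ^ (k + 1) := pow_pos hr _
    rw [abs_div, abs_of_pos hrj, div_le_div_iff₀ hrj hk]
    linarith
  have e : Gf k r a b t - 2 * Real.cos ((k + 1) * t) =
      ∑ j : Fin k, 2 * (a j * Complex.exp (((k : ℝ) - (j : ℕ) : ℝ) * t *
      Complex.I)).re / r ^ ((j : ℕ) + 1) + b / r ^ (k + 1) := by
    unfold Gf
    ring
  rw [e]
  refine lt_of_le_of_lt (abs_add_le _ _) (lt_of_le_of_lt (add_le_add h2 h3) ?_)
  have h4 : (k : ℝ) * (2 / ((k : ℝ) + 1)) + 1 / ((k : ℝ) + 1) = (2 * k + 1) / ((k : ℝ) + 1) := by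
    ring
  rw [h4, div_lt_iff₀ hk]
  linarith

/-- the value of the polynomial on the circle -/
theorem eval_circle {k q : ℕ} (hq : 0 < q) (a : Fin k → ℂ) (b t : ℝ) :
    (hpoly k (q : ℂ) a (fun j => (starRingEnd ℂ) (a j)) (b : ℂ)).eval
      ((Real.sqrt q : ℂ) * Complex.exp (t * Complex.I)) =
    (Real.sqrt q : ℂ) ^ (2 * k + 2) * Complex.exp (((k : ℂ) + 1) * (t * Complex.I)) *
      (Gf k (Real.sqrt q) a b t : ℝ) := by
  obtain ⟨r, hr⟩ : ∃ r : ℝ, r = Real.sqrt q := ⟨_, rfl⟩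
  have hq' : (0 : ℝ) < q := by exact_mod_cast hq
  have hr0 : 0 < r := by rw [hr]; exact Real.sqrt_pos.2 hq'
  have hr2 : ((q : ℂ)) = (r : ℂ) ^ 2 := by
    have : r ^ 2 = q := by rw [hr]; exact Real.sq_sqrt hq'.le
    have h2 : ((r ^ 2 : ℝ) : ℂ) = ((q : ℝ) : ℂ) := by rw [this]
    push_cast at h2
    exact h2.symm
  rw [← hr]
  have hrc : (r : ℂ) ≠ 0 := by exact_mod_cast hr0.ne'
  obtain ⟨e, he⟩ : ∃ e : ℂ, e = Complex.exp (t * Complex.I) := ⟨_, rfl⟩
  have hexp : ∀ m : ℕ, Complex.exp ((m : ℂ) * (t * Complex.I)) = e ^ m := by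
    intro m
    rw [he, ← Complex.exp_nat_mul]
  have he0 : e ≠ 0 := by rw [he]; exact Complex.exp_ne_zero _
  have hec : (starRingEnd ℂ) e = e⁻¹ := by
    rw [he, ← Complex.exp_conj, ← Complex.exp_neg]
    congr 1
    rw [map_mul, Complex.conj_ofReal, Complex.conj_I]
    ring
  have hk1 : Complex.exp (((k : ℂ) + 1) * (t * Complex.I)) = e ^ (k + 1) := by
    have := hexp (k + 1)
    push_cast at this
    exact this
  rw [hk1, ← he]
  -- the function
  have hG : ((Gf k r a b t : ℝ) : ℂ) = (e ^ (k + 1) + (e⁻¹) ^ (k + 1)) +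
      (∑ j : Fin k, (a j * e ^ (k - (j : ℕ)) + (starRingEnd ℂ) (a j) * (e⁻¹) ^ (k - (j : ℕ))) /
        (r : ℂ) ^ ((j : ℕ) + 1) + b / (r : ℂ) ^ (k + 1)) := by
    unfold Gf
    push_cast
    congr 1
    · have h1 : Complex.cos (((k : ℂ) + 1) * t) = (Complex.exp ((((k : ℂ) + 1) * t) * Complex.I) +
          Complex.exp (-(((k : ℂ) + 1) * t) * Complex.I)) / 2 := rfl
      rw [h1]
      have h2 : Complex.exp ((((k : ℂ) + 1) * t) * Complex.I) = e ^ (k + 1) := by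
        rw [← hk1]
        congr 1
        ring
      have h3 : Complex.exp (-(((k : ℂ) + 1) * t) * Complex.I) = (e⁻¹) ^ (k + 1) := by
        rw [inv_pow, ← hk1, ← Complex.exp_neg]
        congr 1
        ring
      rw [h2, h3]
      ring
    · congr 1
      refine Finset.sum_congr rfl fun j _ => ?_
      congr 1
      have hj : (((k : ℂ) - ((j : ℕ) : ℂ)) * (t : ℂ) * Complex.I) =
          (((k - (j : ℕ) : ℕ)) : ℂ) * (t * Complex.I) := by
        rw [Nat.cast_sub j.2.le]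
        ring
      rw [hj, hexp, Complex.re_eq_add_conj, map_mul, map_pow, hec]
      ring
  rw [hG]
  simp only [hpoly, eval_add, eval_mul, eval_pow, eval_X, eval_C, eval_finsetSum]
  rw [hr2]
  have t1 : ((r : ℂ) * e) ^ (2 * k + 2) + ((r : ℂ) ^ 2) ^ (k + 1) =
      (r : ℂ) ^ (2 * k + 2) * e ^ (k + 1) * (e ^ (k + 1) + (e⁻¹) ^ (k + 1)) := by
    have h1 : e ^ (k + 1) * (e⁻¹) ^ (k + 1) = 1 := by
      rw [← mul_pow, mul_inv_cancel₀ he0, one_pow]
    have h2 : ((r : ℂ) * e) ^ (2 * k + 2) = (r : ℂ) ^ (2 * k + 2) * (e ^ (k + 1) * e ^ (k + 1)) := by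
      rw [mul_pow, ← pow_add]
      congr 2
      ring
    have h3 : ((r : ℂ) ^ 2) ^ (k + 1) = (r : ℂ) ^ (2 * k + 2) := by
      rw [← pow_mul]
      congr 1
    rw [h2, h3]
    linear_combination (-(r : ℂ) ^ (2 * k + 2)) * h1
  have t2 : (b : ℂ) * ((r : ℂ) * e) ^ (k + 1) =
      (r : ℂ) ^ (2 * k + 2) * e ^ (k + 1) * (b / (r : ℂ) ^ (k + 1)) := by
    have h1 : (r : ℂ) ^ (2 * k + 2) = (r : ℂ) ^ (k + 1) * (r : ℂ) ^ (k + 1) := by
      rw [← pow_add]
      congr 1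
      ring
    rw [h1, mul_pow]
    have h2 : (r : ℂ) ^ (k + 1) ≠ 0 := pow_ne_zero _ hrc
    field_simp
  have t3 : ∀ j : Fin k, a j * ((r : ℂ) * e) ^ (2 * k + 1 - (j : ℕ)) +
      ((r : ℂ) ^ 2) ^ (k - (j : ℕ)) * (starRingEnd ℂ) (a j) * ((r : ℂ) * e) ^ ((j : ℕ) + 1) =
      (r : ℂ) ^ (2 * k + 2) * e ^ (k + 1) *
        ((a j * e ^ (k - (j : ℕ)) + (starRingEnd ℂ) (a j) * (e⁻¹) ^ (k - (j : ℕ))) /
        (r : ℂ) ^ ((j : ℕ) + 1)) := by
    intro j
    obtain ⟨m, hm⟩ : ∃ m, k = (j : ℕ) + m := ⟨k - j, by have := j.2; omega⟩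
    have e1 : 2 * k + 1 - (j : ℕ) = (k + 1) + m := by omega
    have e2 : k - (j : ℕ) = m := by omega
    have e3 : (r : ℂ) ^ (2 * k + 2) = (r : ℂ) ^ ((k + 1) + m) * (r : ℂ) ^ ((j : ℕ) + 1) := by
      rw [← pow_add]
      congr 1
      omega
    rw [e1, e2, e3]
    have h2 : (r : ℂ) ^ ((j : ℕ) + 1) ≠ 0 := pow_ne_zero _ hrc
    have e4 : (r : ℂ) ^ ((k + 1) + m) * (r : ℂ) ^ ((j : ℕ) + 1) * e ^ (k + 1) *
        ((a j * e ^ m + (starRingEnd ℂ) (a j) * (e⁻¹) ^ m) / (r : ℂ) ^ ((j : ℕ) + 1)) =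
        (r : ℂ) ^ ((k + 1) + m) * e ^ (k + 1) *
        (a j * e ^ m + (starRingEnd ℂ) (a j) * (e⁻¹) ^ m) := by
      field_simp
    rw [e4]
    have e5 : e ^ (k + 1) * (e⁻¹) ^ m = e ^ ((j : ℕ) + 1) := by
      have : e ^ (k + 1) = e ^ ((j : ℕ) + 1) * e ^ m := by
        rw [← pow_add]
        congr 1
        omega
      rw [this, mul_assoc, ← mul_pow, mul_inv_cancel₀ he0, one_pow, mul_one]
    have e6 : ((r : ℂ) ^ 2) ^ m * ((r : ℂ) * e) ^ ((j : ℕ) + 1) =
        (r : ℂ) ^ ((k + 1) + m) * e ^ ((j : ℕ) + 1) := by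
      rw [mul_pow, ← pow_mul, ← mul_assoc, ← pow_add]
      congr 2
      omega
    have e7 : ((r : ℂ) * e) ^ (k + 1 + m) = (r : ℂ) ^ (k + 1 + m) * (e ^ (k + 1) * e ^ m) := by
      rw [mul_pow, ← pow_add]
    rw [e7]
    linear_combination (starRingEnd ℂ) (a j) * e6 -
      (r : ℂ) ^ (k + 1 + m) * (starRingEnd ℂ) (a j) * e5
  rw [Finset.sum_congr rfl fun j _ => t3 j, ← Finset.mul_sum, t2]
  linear_combination t1

theorem exists_zero {k : ℕ} {r : ℝ} (hr : 0 < r) {a : Fin k → ℂ} {b : ℝ}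
    (ha : ∀ j, ((k : ℝ) + 1) * ‖a j‖ ≤ r ^ ((j : ℕ) + 1)) (hb : ((k : ℝ) + 1) * |b| ≤ r ^ (k + 1))
    (i : ℕ) : ∃ t : ℝ, Real.pi * i / (k + 1) < t ∧ t < Real.pi * (i + 1) / (k + 1) ∧
      Gf k r a b t = 0 := by
  have hk : (0 : ℝ) < (k : ℝ) + 1 := by positivity
  have hval : ∀ m : ℕ, 0 < (-1) ^ m * Gf k r a b (Real.pi * m / (k + 1)) := by
    intro m
    have h1 := bound hr ha hb (Real.pi * m / (k + 1))
    have h2 : ((k : ℝ) + 1) * (Real.pi * m / (k + 1)) = m * Real.pi := by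
      field_simp
    rw [h2, Real.cos_nat_mul_pi, abs_lt] at h1
    rcases Nat.even_or_odd m with h | h
    · rw [h.neg_one_pow] at h1 ⊢
      linarith
    · rw [h.neg_one_pow] at h1 ⊢
      linarith
  have hlt : Real.pi * i / (k + 1) < Real.pi * (i + 1) / (k + 1) := by
    rw [div_lt_div_iff_of_pos_right hk]
    have := Real.pi_pos
    linarith
  have hl := hval i
  have hrt := hval (i + 1)
  push_cast at hrt
  have hc : ContinuousOn (fun t => (-1) ^ i * Gf k r a b t)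
      (Set.Icc (Real.pi * i / (k + 1)) (Real.pi * (i + 1) / (k + 1))) :=
    (continuous_const.mul (Gf_cont k r a b)).continuousOn
  have h3 := intermediate_value_Ioo' hlt.le hc
  obtain ⟨t, ⟨ht1, ht2⟩, ht3⟩ := h3 (a := (0 : ℝ)) ⟨by
    show (-1) ^ i * Gf k r a b (Real.pi * (i + 1) / (k + 1)) < 0
    rw [pow_succ] at hrt
    linarith, hl⟩
  refine ⟨t, ht1, ht2, ?_⟩
  have h4 : ((-1 : ℝ)) ^ i ≠ 0 := pow_ne_zero _ (by norm_num)
  exact (mul_eq_zero.1 ht3).resolve_left h4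

theorem w1 : W1 := by
  intro k q a b hq ha hb
  have hq' : (0 : ℝ) < q := by exact_mod_cast hq
  obtain ⟨r, hr⟩ : ∃ r : ℝ, r = Real.sqrt q := ⟨_, rfl⟩
  have hr0 : 0 < r := by rw [hr]; exact Real.sqrt_pos.2 hq'
  rw [← hr] at hb
  simp only [← hr] at ha
  choose t ht1 ht2 ht3 using fun i : ℕ => exists_zero hr0 ha hb i
  have hk : (0 : ℝ) < (k : ℝ) + 1 := by positivity
  have hmono : ∀ i j : ℕ, i < j → t i < t j := by
    intro i j hij
    have h1 : Real.pi * (i + 1) / (k + 1) ≤ Real.pi * j / (k + 1) := by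
      apply div_le_div_of_nonneg_right _ hk.le
      apply mul_le_mul_of_nonneg_left _ Real.pi_pos.le
      exact_mod_cast hij
    linarith [ht2 i, ht1 j]
  have h0 : ∀ i : ℕ, 0 < t i := fun i => lt_of_le_of_lt
    (div_nonneg (mul_nonneg Real.pi_pos.le (Nat.cast_nonneg i)) hk.le) (ht1 i)
  have h2p : ∀ i : ℕ, i < 2 * k + 2 → t i < 2 * Real.pi := by
    intro i hi
    refine lt_of_lt_of_le (ht2 i) ?_
    rw [div_le_iff₀ hk]
    have h1 : (i : ℝ) + 1 ≤ 2 * k + 2 := by exact_mod_cast hi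
    have := mul_le_mul_of_nonneg_left h1 Real.pi_pos.le
    linarith
  have hz : Function.Injective (fun i : Fin (2 * k + 2) =>
      (r : ℂ) * Complex.exp ((t i : ℝ) * Complex.I)) := by
    intro i j hij
    have hrc : (r : ℂ) ≠ 0 := by exact_mod_cast hr0.ne'
    have h1 := mul_left_cancel₀ hrc hij
    rw [Complex.exp_eq_exp_iff_exists_int] at h1
    obtain ⟨n, hn⟩ := h1
    have h2 : (t i : ℝ) = t j + n * (2 * Real.pi) := by
      have h3 : ((t i : ℝ) : ℂ) * Complex.I =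
          ((t j + n * (2 * Real.pi) : ℝ) : ℂ) * Complex.I := by
        rw [hn]
        push_cast
        ring
      exact_mod_cast mul_right_cancel₀ Complex.I_ne_zero h3
    have p := Real.pi_pos
    have a1 := h0 i
    have a2 := h0 j
    have a3 := h2p i i.2
    have a4 := h2p j j.2
    have hn0 : n = 0 := by
      have b1 : (n : ℝ) * (2 * Real.pi) < 1 * (2 * Real.pi) := by linarith
      have b2 : (-1) * (2 * Real.pi) < (n : ℝ) * (2 * Real.pi) := by linarith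
      have c1 : (n : ℝ) < 1 := lt_of_mul_lt_mul_right b1 (by linarith)
      have c2 : (-1 : ℝ) < n := lt_of_mul_lt_mul_right b2 (by linarith)
      have d1 : n < 1 := by exact_mod_cast c1
      have d2 : -1 < n := by exact_mod_cast c2
      omega
    rw [hn0, Int.cast_zero, zero_mul, add_zero] at h2
    rcases lt_trichotomy (i : ℕ) (j : ℕ) with h | h | h
    · exact absurd h2 (hmono _ _ h).ne
    · exact Fin.ext h
    · exact absurd h2 (hmono _ _ h).ne'
  refine ⟨fun i => (r : ℂ) * Complex.exp ((t i : ℝ) * Complex.I), hz, ?_, ?_⟩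
  · intro i
    rw [norm_mul, Complex.norm_exp_ofReal_mul_I, mul_one, Complex.norm_real, Real.norm_eq_abs,
      sq_abs, hr]
    exact Real.sq_sqrt hq'.le
  · have hroot : ∀ i : Fin (2 * k + 2), (X - C ((r : ℂ) * Complex.exp ((t i : ℝ) * Complex.I))) ∣
        hpoly k (q : ℂ) a (fun j => (starRingEnd ℂ) (a j)) (b : ℂ) := by
      intro i
      rw [dvd_iff_isRoot, IsRoot.def, hr, eval_circle hq a b (t i), ← hr, ht3, Complex.ofReal_zero,
        mul_zero]
    have hdvd : ∏ i : Fin (2 * k + 2), (X - C ((r : ℂ) * Complex.exp ((t i : ℝ) * Complex.I))) ∣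
        hpoly k (q : ℂ) a (fun j => (starRingEnd ℂ) (a j)) (b : ℂ) :=
      Finset.prod_dvd_of_coprime (fun i _ j _ hij => pairwise_coprime_X_sub_C hz hij)
        fun i _ => hroot i
    have hd := low_degree k (q : ℂ) a (fun j => (starRingEnd ℂ) (a j)) (b : ℂ)
    have hm : (hpoly k (q : ℂ) a (fun j => (starRingEnd ℂ) (a j)) (b : ℂ)).Monic := by
      rw [hpoly_eq]
      exact monic_X_pow_add hd
    have hn : (hpoly k (q : ℂ) a (fun j => (starRingEnd ℂ) (a j)) (b : ℂ)).natDegree =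
        2 * k + 2 := by
      rw [hpoly_eq, natDegree_add_eq_left_of_degree_lt (by rw [degree_X_pow]; exact hd),
        natDegree_X_pow]
    have hpm : (∏ i : Fin (2 * k + 2),
        (X - C ((r : ℂ) * Complex.exp ((t i : ℝ) * Complex.I)))).Monic :=
      monic_prod_of_monic _ _ fun i _ => monic_X_sub_C _
    refine (eq_of_monic_of_dvd_of_natDegree_le hpm hm hdvd ?_).symm
    rw [hn, natDegree_prod_of_monic _ _ fun i _ => monic_X_sub_C _]
    simp only [natDegree_X_sub_C, Finset.sum_const, Finset.card_univ, Fintype.card_fin,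
      smul_eq_mul, mul_one, le_refl]

end Pool.Agent.H122.WT1
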