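import Pool.Agent.H857.WT.Core

/-!
# Exotic classes of codimension `k + 1` (statement W11 of the project of helper857)

The lemmas `alt`, `fn`, `fn_apply`, `pow_apply`, `eig` are those of `Pool/Agent/H857/EF/P/S19.lean`.
The divisor classes are killed by the projection to the space of the `2 k + 2` eigenvectors.
-/

set_option autoImplicit false

namespace Pool.Agent.H229.WT

open Module Polynomial Pool.Agent.H857.HK Pool.Agent.H857.EF Pool.Agent.H857.WT

variable {V : Type} [AddCommGroup V] [Module ℂ V]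

/-- the determinant of the values of `n` functionals -/
noncomputable def alt {n : ℕ} (φ : Fin n → V →ₗ[ℂ] ℂ) : V [⋀^Fin n]→ₗ[ℂ] ℂ :=
  (Matrix.detRowAlternating (n := Fin n) (R := ℂ)).compLinearMap (LinearMap.pi φ)

/-- the same as a functional on the exterior algebra -/
noncomputable def fn {n : ℕ} (φ : Fin n → V →ₗ[ℂ] ℂ) : ExteriorAlgebra ℂ V →ₗ[ℂ] ℂ :=
  ExteriorAlgebra.liftAlternating (Function.update (0 : ∀ i, V [⋀^Fin i]→ₗ[ℂ] ℂ) n (alt φ))

theorem fn_apply {n : ℕ} (φ : Fin n → V →ₗ[ℂ] ℂ) (v : Fin n → V) :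
    fn φ (ExteriorAlgebra.ιMulti ℂ n v) = Matrix.det (Matrix.of fun a b => φ b (v a)) := by
  unfold fn
  rw [ExteriorAlgebra.liftAlternating_apply_ιMulti, Function.update_self]
  rfl

theorem pow_apply {F : V →ₗ[ℂ] V} {α : V →ₗ[ℂ] ℂ} {a : ℂ} (hα : ∀ u, α (F u) = a * α u)
    (t : ℕ) (u : V) : α ((F ^ t) u) = a ^ t * α u := by
  induction t generalizing u with
  | zero => simp
  | succ t ih =>
    rw [pow_succ', Module.End.mul_apply, hα, ih, pow_succ']
    ring

theorem eig [FiniteDimensional ℂ V] {F : V →ₗ[ℂ] V}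
    (hF : Submodule.span ℂ {v : V | ∃ z : ℂ, F v = z • v} = ⊤) {z : ℂ}
    (hz : F.charpoly.IsRoot z) :
    ∃ (v : V) (φ : V →ₗ[ℂ] ℂ), F v = z • v ∧ φ v = 1 ∧ ∀ u, φ (F u) = z * φ u := by
  have h1 : Module.End.HasEigenvalue F z :=
    (Module.End.hasEigenvalue_iff_isRoot_charpoly F z).2 hz
  have h2 : LinearMap.range (F - z • (LinearMap.id : V →ₗ[ℂ] V)) < ⊤ := by
    rw [lt_top_iff_ne_top]
    intro h
    have h3 := LinearMap.ker_eq_bot_iff_range_eq_top.2 h
    obtain ⟨v, hv⟩ := h1.exists_hasEigenvector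
    have h4 : v ∈ LinearMap.ker (F - z • (LinearMap.id : V →ₗ[ℂ] V)) := by
      rw [LinearMap.mem_ker, LinearMap.sub_apply, LinearMap.smul_apply, LinearMap.id_apply,
        hv.apply_eq_smul, sub_self]
    rw [h3] at h4
    exact hv.2 ((Submodule.mem_bot ℂ).1 h4)
  obtain ⟨φ, hφ0, hφ⟩ := Submodule.exists_le_ker_of_lt_top _ h2
  have hφ1 : ∀ u, φ (F u) = z * φ u := by
    intro u
    have h3 : (F - z • (LinearMap.id : V →ₗ[ℂ] V)) u ∈ LinearMap.ker φ := hφ ⟨u, rfl⟩
    rw [LinearMap.mem_ker, LinearMap.sub_apply, LinearMap.smul_apply, LinearMap.id_apply,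
      map_sub, map_smul, smul_eq_mul, sub_eq_zero] at h3
    exact h3
  obtain ⟨v, ⟨μ, hμ⟩, hv⟩ : ∃ v : V, (∃ z : ℂ, F v = z • v) ∧ φ v ≠ 0 := by
    by_contra hcon
    push Not at hcon
    apply hφ0
    have h5 : Submodule.span ℂ {v : V | ∃ z : ℂ, F v = z • v} ≤ LinearMap.ker φ := by
      rw [Submodule.span_le]
      rintro v ⟨μ, hμ⟩
      exact hcon v ⟨μ, hμ⟩
    rw [hF, top_le_iff] at h5
    exact LinearMap.ker_eq_top.1 h5
  have hμz : μ = z := by
    have h6 := hφ1 v
    rw [hμ, map_smul, smul_eq_mul] at h6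
    exact mul_right_cancel₀ hv h6
  refine ⟨(φ v)⁻¹ • v, φ, ?_, ?_, hφ1⟩
  · rw [map_smul, hμ, hμz, smul_comm]
  · rw [map_smul, smul_eq_mul, inv_mul_cancel₀ hv]

/-- the diagonal map with the entries `a i` -/
noncomputable def diag {n : ℕ} (a : Fin n → ℂ) : (Fin n → ℂ) →ₗ[ℂ] (Fin n → ℂ) :=
  LinearMap.pi fun i => a i • LinearMap.proj i

theorem diag_single {n : ℕ} (a : Fin n → ℂ) (i : Fin n) :
    diag a (Pi.single i 1) = a i • (Pi.single i 1 : Fin n → ℂ) := by
  funext j
  by_cases h : j = i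
  · subst h; simp [diag]
  · simp [diag, h]

theorem map_mem {W : Type} [AddCommGroup W] [Module ℂ W] (Φ : V →ₗ[ℂ] W)
    {y : ExteriorAlgebra ℂ V} (hy : y ∈ ⋀[ℂ]^2 V) : ExteriorAlgebra.map Φ y ∈ ⋀[ℂ]^2 W := by
  rw [ExteriorAlgebra.exteriorPower, pow_two] at hy ⊢
  refine Submodule.mul_induction_on hy ?_ fun x y hx hy => ?_
  · rintro _ ⟨u, rfl⟩ _ ⟨w, rfl⟩
    rw [map_mul, ExteriorAlgebra.map_apply_ι, ExteriorAlgebra.map_apply_ι]
    exact Submodule.mul_mem_mul ⟨_, rfl⟩ ⟨_, rfl⟩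
  · rw [map_add]
    exact Submodule.add_mem _ hx hy

/-- the diagonal map has no eigenvalue `c` on the second exterior power -/
theorem diag_inj {n : ℕ} (a : Fin n → ℂ) (c : ℂ) (h : ∀ i j, i ≠ j → a i * a j ≠ c)
    {y : ExteriorAlgebra ℂ (Fin n → ℂ)} (hy : y ∈ ⋀[ℂ]^2 (Fin n → ℂ))
    (hyc : ExteriorAlgebra.map (diag a) y = c • y) : y = 0 := by
  classical
  set M : Submodule ℂ (ExteriorAlgebra ℂ (Fin n → ℂ)) := ⋀[ℂ]^2 (Fin n → ℂ) with hM
  set T : ExteriorAlgebra ℂ (Fin n → ℂ) →ₗ[ℂ] ExteriorAlgebra ℂ (Fin n → ℂ) :=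
    (ExteriorAlgebra.map (diag a)).toLinearMap - c • LinearMap.id with hT
  have hTa : ∀ x, T x = ExteriorAlgebra.map (diag a) x - c • x := fun x => rfl
  have hTM : ∀ x ∈ M, T x ∈ M := by
    intro x hx
    rw [hTa]
    exact Submodule.sub_mem _ (map_mem _ hx) (Submodule.smul_mem _ _ hx)
  have hgen : ∀ i j : Fin n, ExteriorAlgebra.ι ℂ (Pi.single i 1 : Fin n → ℂ) *
      ExteriorAlgebra.ι ℂ (Pi.single j 1 : Fin n → ℂ) ∈ M.map T := by
    intro i j
    by_cases hij : i = j
    · subst hij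
      rw [ExteriorAlgebra.ι_sq_zero]
      exact Submodule.zero_mem _
    · have hne : a i * a j - c ≠ 0 := sub_ne_zero.2 (h i j hij)
      refine ⟨(a i * a j - c)⁻¹ • (ExteriorAlgebra.ι ℂ (Pi.single i 1 : Fin n → ℂ) *
        ExteriorAlgebra.ι ℂ (Pi.single j 1 : Fin n → ℂ)), ?_, ?_⟩
      · refine Submodule.smul_mem _ _ ?_
        rw [hM, ExteriorAlgebra.exteriorPower, pow_two]
        exact Submodule.mul_mem_mul ⟨_, rfl⟩ ⟨_, rfl⟩
      · rw [map_smul, hTa, map_mul, ExteriorAlgebra.map_apply_ι, ExteriorAlgebra.map_apply_ι,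
          diag_single, diag_single, map_smul, map_smul, smul_mul_smul_comm, ← sub_smul, smul_smul,
          inv_mul_cancel₀ hne, one_smul]
  have hsum : ∀ u : Fin n → ℂ, ExteriorAlgebra.ι ℂ u =
      ∑ i, u i • ExteriorAlgebra.ι ℂ (Pi.single i 1 : Fin n → ℂ) := by
    intro u
    conv_lhs => rw [pi_eq_sum_univ' u]
    rw [map_sum]
    exact Finset.sum_congr rfl fun i _ => by rw [map_smul]
  have hle : M ≤ M.map T := by
    conv_lhs => rw [hM, ExteriorAlgebra.exteriorPower, pow_two]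
    rw [Submodule.mul_le]
    rintro _ ⟨u, rfl⟩ _ ⟨w, rfl⟩
    rw [hsum u, hsum w, Finset.sum_mul_sum]
    refine Submodule.sum_mem _ fun i _ => Submodule.sum_mem _ fun j _ => ?_
    rw [smul_mul_smul_comm]
    exact Submodule.smul_mem _ _ (hgen i j)
  have hsurj : Function.Surjective (T.restrict hTM) := by
    rintro ⟨x, hx⟩
    obtain ⟨y, hy, hyx⟩ := hle hx
    exact ⟨⟨y, hy⟩, Subtype.ext hyx⟩
  have hinj : Function.Injective (T.restrict hTM) := LinearMap.injective_iff_surjective.2 hsurj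
  have h0 : (T.restrict hTM) ⟨y, hy⟩ = 0 := by
    apply Subtype.ext
    change T y = 0
    rw [hTa, hyc, sub_self]
  have h1 := hinj (h0.trans (map_zero _).symm)
  exact congrArg Subtype.val h1

theorem w11 : W11 := by
  intro k q f z hk hq hz hG V _ _ _ F hF
  obtain ⟨hspan, hch⟩ := hF
  have hroot : ∀ i, F.charpoly.IsRoot (z i : ℂ) := by
    intro i
    have h1 := hz i
    rw [Polynomial.aeval_def, algebraMap_int_eq] at h1
    rw [hch, Polynomial.IsRoot.def, Polynomial.eval_map]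
    exact h1
  choose v φ hv hφ1 hφ using fun i => eig hspan (hroot i)
  have hφv : ∀ i j, φ i (v j) = if i = j then 1 else 0 := by
    intro i j
    split_ifs with h
    · rw [h, hφ1]
    · have h1 := hφ i (v j)
      rw [hv, map_smul, smul_eq_mul] at h1
      have h2 : ((z j : ℂ) - z i) * φ i (v j) = 0 := by rw [sub_mul, h1, sub_self]
      rcases mul_eq_zero.1 h2 with h3 | h3
      · exact absurd (hG.inj (Subtype.ext (sub_eq_zero.1 h3))).symm h
      · exact h3
  -- no relations between two of the roots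
  have hpair : ∀ (t : ℕ), 0 < t → ∀ i j, i ≠ j → (z i : ℂ) ^ t * (z j : ℂ) ^ t ≠ (q : ℂ) ^ t := by
    intro t ht i j hij he
    have hrel : RelZ q (fun i => (z i : ℂ)) (fun l => (if l = i then 1 else 0) +
        (if l = j then 1 else 0)) := by
      refine ⟨t, ht, ?_⟩
      have h1 : ∏ l, (z l : ℂ) ^ (2 * ((if l = i then (1 : ℤ) else 0) +
          (if l = j then 1 else 0))) = ((z i : ℂ) * z j) ^ 2 := by
        have h2 : ∀ l, (z l : ℂ) ^ (2 * ((if l = i then (1 : ℤ) else 0) +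
            (if l = j then 1 else 0))) = (if l = i then (z l : ℂ) ^ 2 else 1) *
            (if l = j then (z l : ℂ) ^ 2 else 1) := by
          intro l
          by_cases h3 : l = i
          · by_cases h4 : l = j
            · exact absurd (h3.symm.trans h4) hij
            · simp only [if_pos h3, if_neg h4, add_zero, mul_one]
              norm_cast
          · by_cases h4 : l = j
            · simp only [if_neg h3, if_pos h4, zero_add, mul_one, one_mul]
              norm_cast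
            · simp [h3, h4]
        rw [Finset.prod_congr rfl fun l _ => h2 l, Finset.prod_mul_distrib,
          Finset.prod_ite_eq' Finset.univ i, Finset.prod_ite_eq' Finset.univ j,
          if_pos (Finset.mem_univ _), if_pos (Finset.mem_univ _), mul_pow]
      have h5 : ∑ l, ((if l = i then (1 : ℤ) else 0) + (if l = j then 1 else 0)) = 2 := by
        rw [Finset.sum_add_distrib, Finset.sum_ite_eq' Finset.univ i,
          Finset.sum_ite_eq' Finset.univ j, if_pos (Finset.mem_univ _),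
          if_pos (Finset.mem_univ _)]
        norm_num
      rw [h1, h5]
      have h6 : ((z i : ℂ) * z j) ^ t = (q : ℂ) ^ t := by rw [mul_pow, he]
      have h7 : ((q : ℂ) ^ (2 : ℤ)) = (q : ℂ) ^ 2 := by norm_cast
      rw [h7, ← pow_mul, ← pow_mul, mul_comm 2 t, pow_mul, h6, pow_mul]
    have hall := hG.rel _ hrel
    -- there is a third index
    obtain ⟨l, hl1, hl2⟩ : ∃ l : Fin (2 * k + 2), l ≠ i ∧ l ≠ j := by
      by_contra hcon
      push Not at hcon
      have hsub : (Finset.univ : Finset (Fin (2 * k + 2))) ⊆ {i, j} := by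
        intro l _
        rw [Finset.mem_insert, Finset.mem_singleton]
        by_cases h : l = i
        · exact Or.inl h
        · exact Or.inr (hcon l h)
      have h1 := Finset.card_le_card hsub
      rw [Finset.card_univ, Fintype.card_fin] at h1
      have h2 : ({i, j} : Finset (Fin (2 * k + 2))).card ≤ 2 := Finset.card_le_two
      omega
    have h8 := hall i l
    simp only [if_true, if_neg hij, if_neg hl1, if_neg hl2] at h8
    norm_num at h8
  refine ⟨ExteriorAlgebra.ιMulti ℂ (2 * k + 2) v, ?_, ?_, ?_⟩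
  · have : 2 * (k + 1) = 2 * k + 2 := by ring
    rw [this]
    exact ExteriorAlgebra.ιMulti_range ℂ (2 * k + 2) ⟨v, rfl⟩
  · rw [pow_one, pow_one, ExteriorAlgebra.map_apply_ιMulti]
    have h1 : F ∘ v = fun i => (z i : ℂ) • v i := by
      funext i
      exact hv i
    rw [h1, AlternatingMap.map_smul_univ, hG.prod]
  · intro t ht hmem
    rw [one_mul] at hmem
    -- the projection
    set Φ : V →ₗ[ℂ] (Fin (2 * k + 2) → ℂ) := LinearMap.pi φ with hΦ
    have hcomm : Φ ∘ₗ (F ^ t) = diag (fun i => (z i : ℂ) ^ t) ∘ₗ Φ := by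
      ext u i
      exact pow_apply (hφ i) t u
    have hdiv : ∀ y : ExteriorAlgebra ℂ V, y ∈ ⋀[ℂ]^2 V →
        ExteriorAlgebra.map (F ^ t) y = ((q : ℂ) ^ t) • y → ExteriorAlgebra.map Φ y = 0 := by
      intro y hy hyq
      refine diag_inj (fun i => (z i : ℂ) ^ t) ((q : ℂ) ^ t) (hpair t ht) (map_mem Φ hy) ?_
      have h1 : ExteriorAlgebra.map (diag (fun i => (z i : ℂ) ^ t)) (ExteriorAlgebra.map Φ y) =
          ExteriorAlgebra.map Φ (ExteriorAlgebra.map (F ^ t) y) := by
        rw [← AlgHom.comp_apply, ← AlgHom.comp_apply, ExteriorAlgebra.map_comp_map,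
          ExteriorAlgebra.map_comp_map, hcomm]
      rw [h1, hyq, map_smul]
    have hS : ∀ y ∈ Submodule.span ℂ {y : ExteriorAlgebra ℂ V | y ∈ ⋀[ℂ]^2 V ∧
        ExteriorAlgebra.map (F ^ t) y = ((q : ℂ) ^ t) • y}, ExteriorAlgebra.map Φ y = 0 := by
      intro y hy
      refine Submodule.span_induction (fun y hy => hdiv y hy.1 hy.2) (map_zero _)
        (fun x y _ _ hx hy => by rw [map_add, hx, hy, add_zero])
        (fun a x _ hx => by rw [map_smul, hx, smul_zero]) hy
    have hzero : ExteriorAlgebra.map Φ (ExteriorAlgebra.ιMulti ℂ (2 * k + 2) v) = 0 := by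
      rw [divisorProducts, pow_succ] at hmem
      refine Submodule.mul_induction_on hmem (fun y₁ _ y₂ h₂ => ?_) (fun x y hx hy => ?_)
      · rw [map_mul, hS y₂ h₂, mul_zero]
      · rw [map_add, hx, hy, add_zero]
    have hone : fn (fun i => (LinearMap.proj i : (Fin (2 * k + 2) → ℂ) →ₗ[ℂ] ℂ))
        (ExteriorAlgebra.map Φ (ExteriorAlgebra.ιMulti ℂ (2 * k + 2) v)) = 1 := by
      rw [ExteriorAlgebra.map_apply_ιMulti, fn_apply]
      have h1 : (Matrix.of fun a b => (LinearMap.proj b : (Fin (2 * k + 2) → ℂ) →ₗ[ℂ] ℂ)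
          ((Φ ∘ v) a)) = (1 : Matrix (Fin (2 * k + 2)) (Fin (2 * k + 2)) ℂ) := by
        ext a b
        rw [Matrix.of_apply, Matrix.one_apply]
        change φ b (v a) = _
        rw [hφv]
        by_cases h : a = b
        · rw [if_pos h, if_pos h.symm]
        · rw [if_neg h, if_neg (Ne.symm h)]
      rw [h1, Matrix.det_one]
    rw [hzero, map_zero] at hone
    exact zero_ne_one hone

end Pool.Agent.H229.WT
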