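import Pool.Agent.H857.WT.Core

/-!
# W15a: many good parameters for `k ≥ 3`
-/

set_option autoImplicit false

namespace Pool.Agent.H955.WT

open Module Polynomial Pool.Agent.W521.Descent Pool.Agent.W521.Density Pool.Agent.W521.Count
  Pool.Agent.X297.UB Pool.Agent.H857.PB Pool.Agent.H857.PA Pool.Agent.H857.HK Pool.Agent.H857.EF
  Pool.Agent.H857.WT

/-- Chinese remainder theorem -/
theorem crt (l1 l2 : ℕ) [Fact l1.Prime] [Fact l2.Prime] (h : l1 ≠ l2) (α : ZMod l1)
    (β : ZMod l2) : ∃ c : ℕ, c < l1 * l2 ∧ (c : ZMod l1) = α ∧ (c : ZMod l2) = β := by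
  have hp1 : l1.Prime := Fact.out
  have hp2 : l2.Prime := Fact.out
  have hc : l1.Coprime l2 := (Nat.coprime_primes hp1 hp2).2 h
  refine ⟨(Nat.chineseRemainder hc α.val β.val : ℕ), ?_, ?_, ?_⟩
  · exact Nat.chineseRemainder_lt_mul hc _ _ hp1.ne_zero hp2.ne_zero
  · have h1 := (Nat.chineseRemainder hc α.val β.val).2.1
    rw [(ZMod.natCast_eq_natCast_iff _ _ _).2 h1, ZMod.natCast_zmod_val]
  · have h1 := (Nat.chineseRemainder hc α.val β.val).2.2
    rw [(ZMod.natCast_eq_natCast_iff _ _ _).2 h1, ZMod.natCast_zmod_val]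

theorem coeff_u {R : Type} [CommRing R] (k : ℕ) (q : R) (u v : Fin k → R) (b : R) (i : Fin k) :
    (hpoly k q u v b).coeff (2 * k + 1 - (i : ℕ)) = u i := by
  have hi := i.2
  unfold hpoly
  rw [coeff_add, coeff_add, coeff_add, finsetSum_coeff, coeff_X_pow,
    if_neg (by omega), coeff_C_mul, coeff_X_pow, if_neg (by omega), coeff_C, if_neg (by omega),
    Finset.sum_eq_single i]
  · rw [coeff_add, coeff_C_mul, coeff_C_mul, coeff_X_pow, coeff_X_pow, if_pos rfl,
      if_neg (by omega)]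
    ring
  · intro j _ hj
    have hj2 := j.2
    have hne : (j : ℕ) ≠ i := fun h => hj (Fin.ext h)
    rw [coeff_add, coeff_C_mul, coeff_C_mul, coeff_X_pow, coeff_X_pow, if_neg (by omega),
      if_neg (by omega)]
    ring
  · intro h
    exact absurd (Finset.mem_univ i) h

theorem coeff_b {R : Type} [CommRing R] (k : ℕ) (q : R) (u v : Fin k → R) (b : R) :
    (hpoly k q u v b).coeff (k + 1) = b := by
  unfold hpoly
  rw [coeff_add, coeff_add, coeff_add, finsetSum_coeff, coeff_X_pow,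
    if_neg (by omega), coeff_C_mul, coeff_X_pow, if_pos rfl, coeff_C, if_neg (by omega),
    Finset.sum_eq_zero]
  · ring
  · intro j _
    have hj2 := j.2
    rw [coeff_add, coeff_C_mul, coeff_C_mul, coeff_X_pow, coeff_X_pow, if_neg (by omega),
      if_neg (by omega)]
    ring

theorem al_one {k : ℕ} (x y : Fin k → ℤ) (j : Fin k) :
    al 1 x y j = (x j : ℂ) + (y j : ℂ) * Complex.I := by
  unfold al
  rw [Nat.cast_one, Real.sqrt_one, Complex.ofReal_one, one_mul]

theorem hC_inj (k q : ℕ) (x y x' y' : Fin k → ℤ) (b b' : ℤ)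
    (h : hC k q 1 x y b = hC k q 1 x' y' b') : x = x' ∧ y = y' ∧ b = b' := by
  have h1 : ∀ j, al 1 x y j = al 1 x' y' j := by
    intro j
    have := congrArg (fun f => f.coeff (2 * k + 1 - (j : ℕ))) h
    simp only [hC] at this
    rwa [coeff_u, coeff_u] at this
  have h2 : (b : ℂ) = (b' : ℂ) := by
    have := congrArg (fun f => f.coeff (k + 1)) h
    simp only [hC] at this
    rwa [coeff_b, coeff_b] at this
  refine ⟨funext fun j => ?_, funext fun j => ?_, by exact_mod_cast h2⟩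
  · have := congrArg Complex.re (h1 j)
    rw [al_one, al_one] at this
    simp at this
    exact this
  · have := congrArg Complex.im (h1 j)
    rw [al_one, al_one] at this
    simp at this
    exact this

theorem norm_al {k : ℕ} (x y : Fin k → ℤ) (j : Fin k) :
    ‖al 1 x y j‖ ≤ |(x j : ℝ)| + |(y j : ℝ)| := by
  rw [al_one]
  refine (norm_add_le _ _).trans ?_
  rw [norm_mul, Complex.norm_I, mul_one, Complex.norm_intCast, Complex.norm_intCast]

/-- the `b`-parameters -/
def bb (p N b0 r : ℕ) : ℕ :=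
  if p ∣ b0 + N * (2 * r) then b0 + N * (2 * r + 1) else b0 + N * (2 * r)

theorem bb_not_dvd (p N b0 r : ℕ) (hN : ¬ p ∣ N) : ¬ p ∣ bb p N b0 r := by
  unfold bb
  split_ifs with h
  · intro h2
    apply hN
    have : b0 + N * (2 * r + 1) = (b0 + N * (2 * r)) + N := by ring
    rw [this] at h2
    exact (Nat.dvd_add_right h).1 h2
  · exact h

theorem bb_le (p N b0 r : ℕ) : bb p N b0 r ≤ b0 + N * (2 * r + 1) := by
  unfold bb
  split_ifs with h
  · exact le_rfl
  · nlinarith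

theorem bb_inj (p N b0 r r' : ℕ) (hN : 0 < N) (h : bb p N b0 r = bb p N b0 r') : r = r' := by
  unfold bb at h
  split_ifs at h with h1 h2 h2
  · have := Nat.eq_of_mul_eq_mul_left hN (Nat.add_left_cancel h); omega
  · have := Nat.eq_of_mul_eq_mul_left hN (Nat.add_left_cancel h); omega
  · have := Nat.eq_of_mul_eq_mul_left hN (Nat.add_left_cancel h); omega
  · have := Nat.eq_of_mul_eq_mul_left hN (Nat.add_left_cancel h); omega

theorem bb_cast (p N b0 r l : ℕ) (hl : l ∣ N) : ((bb p N b0 r : ℕ) : ZMod l) = b0 := by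
  have h0 : (N : ZMod l) = 0 := (ZMod.natCast_eq_zero_iff N l).2 hl
  unfold bb
  split_ifs <;> push_cast <;> rw [h0] <;> ring

/-- the pattern `A` modulo a prime `≡ 1 mod 4` -/
theorem patA_ex (hA : W4A) (l : ℕ) [Fact l.Prime] (hl : 3 ≤ l) (k : ℕ) (hk : 1 ≤ k)
    (q s : ZMod l) (hq : q ≠ 0) (hs : s ^ 2 = -1) :
    ∃ (x y : Fin k → ZMod l) (b : ZMod l), s ≠ 0 ∧
      PatA k q (fun j => x j + s * y j) (fun j => x j - s * y j) b := by
  obtain ⟨u, v, b, h⟩ := hA l hl k hk q hq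
  have h2 : (2 : ZMod l) ≠ 0 := by
    intro h2
    have : ((2 : ℕ) : ZMod l) = 0 := by exact_mod_cast h2
    rw [ZMod.natCast_eq_zero_iff] at this
    exact absurd (Nat.le_of_dvd (by norm_num) this) (by omega)
  have hs0 : s ≠ 0 := by
    rintro rfl
    have : (1 : ZMod l) = 0 := by linear_combination hs
    exact one_ne_zero this
  refine ⟨fun j => (u j + v j) / 2, fun j => (u j - v j) / (2 * s), b, hs0, ?_⟩
  have e1 : (fun j => (u j + v j) / 2 + s * ((u j - v j) / (2 * s))) = u := by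
    funext j
    field_simp
    ring
  have e2 : (fun j => (u j + v j) / 2 - s * ((u j - v j) / (2 * s))) = v := by
    funext j
    field_simp
    ring
  rw [e1, e2]
  exact h

/-- the choice of the primes -/
theorem primes_ex (p : ℕ) : ∃ (l1 l2 : ℕ) (s1 : ZMod l1) (s2 : ZMod l2), s1 ^ 2 = -1 ∧
    s2 ^ 2 = -1 ∧ l1.Prime ∧ l2.Prime ∧ 3 ≤ l1 ∧ 3 ≤ l2 ∧ l1 ≠ l2 ∧ l1 ≠ p ∧ l2 ≠ p ∧
    l1 * l2 ≤ 221 := by
  by_cases h5 : p = 5
  · exact ⟨13, 17, 5, 4, by decide, by decide, by norm_num, by norm_num, by norm_num, by norm_num,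
      by norm_num, by omega, by omega, by norm_num⟩
  by_cases h13 : p = 13
  · exact ⟨5, 17, 2, 4, by decide, by decide, by norm_num, by norm_num, by norm_num, by norm_num,
      by norm_num, by omega, by omega, by norm_num⟩
  · exact ⟨5, 13, 2, 5, by decide, by decide, by norm_num, by norm_num, by norm_num, by norm_num,
      by norm_num, by omega, by omega, by norm_num⟩

theorem w15a (hA : W4A) (hB : W4B) : W15a := by
  classical
  intro k hk
  obtain ⟨M, hM⟩ : ∃ M : ℝ, M = 884 * ((k : ℝ) + 1) := ⟨_, rfl⟩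
  have hk0 : (0 : ℝ) ≤ k := Nat.cast_nonneg k
  have hM1 : 884 ≤ M := by rw [hM]; linarith
  refine ⟨(2 * M) ^ (2 * k + 1), by positivity, ?_⟩
  intro p hp a ha hC
  have hpp : p.Prime := Fact.out
  obtain ⟨l1, l2, s1, s2, hs1, hs2, g1, g2, hl1, hl2, hne, hn1, hn2, hle⟩ := primes_ex p
  have f1 : Fact l1.Prime := ⟨g1⟩
  have f2 : Fact l2.Prime := ⟨g2⟩
  have hq1 : (((p ^ a : ℕ) : ZMod l1)) ≠ 0 := by
    rw [Ne, ZMod.natCast_eq_zero_iff]
    intro h
    exact hn1 ((Nat.prime_dvd_prime_iff_eq f1.out hpp).1 (f1.out.dvd_of_dvd_pow h))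
  have hq2 : (((p ^ a : ℕ) : ZMod l2)) ≠ 0 := by
    rw [Ne, ZMod.natCast_eq_zero_iff]
    intro h
    exact hn2 ((Nat.prime_dvd_prime_iff_eq f2.out hpp).1 (f2.out.dvd_of_dvd_pow h))
  obtain ⟨xA, yA, bA, hsA, hPA⟩ := patA_ex hA l1 hl1 k (by omega) _ s1 hq1 hs1
  have hsB : s2 ≠ 0 := by
    rintro rfl
    have : (1 : ZMod l2) = 0 := by linear_combination hs2
    exact one_ne_zero this
  obtain ⟨bB, hPB⟩ := hB l2 k _ hq2 (fun _ => 0) (fun _ => 0)
  set N := l1 * l2 with hN
  have hN0 : 0 < N := Nat.mul_pos f1.out.pos f2.out.pos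
  have hpN : ¬ p ∣ N := by
    intro h
    rcases (hpp.dvd_mul).1 h with h | h
    · exact hn1 ((Nat.prime_dvd_prime_iff_eq hpp f1.out).1 h).symm
    · exact hn2 ((Nat.prime_dvd_prime_iff_eq hpp f2.out).1 h).symm
  choose x0 hx0 hx1 hx2 using fun j => crt l1 l2 hne (xA j) 0
  choose y0 hy0 hy1 hy2 using fun j => crt l1 l2 hne (yA j) 0
  obtain ⟨b0, hb0, hb1, hb2⟩ := crt l1 l2 hne bA bB
  -- sizes
  obtain ⟨Q, hQ⟩ : ∃ Q : ℝ, Q = Real.sqrt ((p : ℝ) ^ a) := ⟨_, rfl⟩
  have hQM : M ≤ Q := by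
    rw [hQ]
    apply Real.le_sqrt_of_sq_le
    refine le_trans ?_ hC.le
    calc M ^ 2 ≤ (2 * M) ^ 2 := by nlinarith
      _ ≤ (2 * M) ^ (2 * k + 1) := pow_le_pow_right₀ (by linarith) (by omega)
  have hQ1 : 1 ≤ Q := by linarith
  have hMpos : 0 < M := by linarith
  have hQi : ∀ i : ℕ, M ≤ Q ^ (i + 1) := fun i =>
    hQM.trans (by simpa using pow_le_pow_right₀ hQ1 (show 1 ≤ i + 1 by omega))
  let T : ℕ → ℕ := fun i => ⌊Q ^ (i + 1) / M⌋₊
  have hT1 : ∀ i, Q ^ (i + 1) ≤ 2 * M * T i := by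
    intro i
    have h1 : 1 ≤ Q ^ (i + 1) / M := (one_le_div hMpos).2 (hQi i)
    have h2 : Q ^ (i + 1) / M < (T i : ℝ) + 1 := Nat.lt_floor_add_one _
    have h3 : (1 : ℝ) ≤ T i := by
      have : 1 ≤ T i := Nat.le_floor (by simpa using h1)
      exact_mod_cast this
    rw [div_lt_iff₀ hMpos] at h2
    nlinarith
  have hT2 : ∀ i (t : ℕ), t < T i → ((k : ℝ) + 1) * (442 * (t + 1)) ≤ Q ^ (i + 1) := by
    intro i t ht
    have h1 : (T i : ℝ) ≤ Q ^ (i + 1) / M := Nat.floor_le (by positivity)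
    rw [le_div_iff₀ hMpos, hM] at h1
    have h2 : (t : ℝ) + 1 ≤ T i := by exact_mod_cast ht
    have h3 : 0 ≤ (T i : ℝ) * (442 * ((k : ℝ) + 1)) := by positivity
    nlinarith
  -- the parameters
  let F : (Fin k → ℕ) × (Fin k → ℕ) × ℕ → ℕ × (Fin k → ℤ) × (Fin k → ℤ) × ℤ := fun t =>
    (1, (fun j => ((x0 j + N * t.1 j : ℕ) : ℤ)), (fun j => ((y0 j + N * t.2.1 j : ℕ) : ℤ)),
      ((bb p N b0 t.2.2 : ℕ) : ℤ))
  have hF : Function.Injective F := by
    rintro ⟨t, t', r⟩ ⟨u, u', v⟩ h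
    simp only [F, Prod.mk.injEq, true_and] at h
    obtain ⟨h1, h2, h3⟩ := h
    have e1 : t = u := by
      funext j
      have := congrFun h1 j
      simp only [Nat.cast_inj] at this
      exact Nat.eq_of_mul_eq_mul_left hN0 (Nat.add_left_cancel this)
    have e2 : t' = u' := by
      funext j
      have := congrFun h2 j
      simp only [Nat.cast_inj] at this
      exact Nat.eq_of_mul_eq_mul_left hN0 (Nat.add_left_cancel this)
    have e3 : r = v := bb_inj p N b0 r v hN0 (by exact_mod_cast h3)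
    rw [e1, e2, e3]
  let J : Finset ((Fin k → ℕ) × (Fin k → ℕ) × ℕ) :=
    (Fintype.piFinset fun j : Fin k => Finset.range (T j)) ×ˢ
      (Fintype.piFinset fun j : Fin k => Finset.range (T j)) ×ˢ Finset.range (T k)
  have hJ : (J.card : ℝ) = (∏ j : Fin k, (T j : ℝ)) * ((∏ j : Fin k, (T j : ℝ)) * T k) := by
    simp only [J, Finset.card_product, Fintype.card_piFinset, Finset.card_range]
    push_cast
    rfl
  refine ⟨J.image F, ?_, ?_, ?_⟩
  · -- the number of the parameters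
    rw [Finset.card_image_of_injective _ hF, hJ, ← hQ]
    have ho : order (k + 1) = (k + 1) ^ 2 := by
      unfold order
      rw [if_neg (by omega), if_neg (by omega)]
    rw [ho]
    have h1 : (∏ j : Fin k, Q ^ ((j : ℕ) + 1)) ≤ (2 * M) ^ k * ∏ j : Fin k, (T j : ℝ) := by
      calc (∏ j : Fin k, Q ^ ((j : ℕ) + 1)) ≤ ∏ j : Fin k, (2 * M * T j) :=
            Finset.prod_le_prod (fun _ _ => by positivity) fun j _ => hT1 j
        _ = _ := by
            rw [Finset.prod_mul_distrib, Finset.prod_const, Finset.card_univ, Fintype.card_fin]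
    have h2 : (∏ j : Fin k, Q ^ ((j : ℕ) + 1)) ^ 2 = Q ^ (k * (k + 1)) := by
      rw [Finset.prod_pow_eq_pow_sum, ← pow_mul, Fin.sum_univ_eq_sum_range (fun j => j + 1) k]
      congr 1
      have := Finset.sum_range_succ' (fun i => i) k
      have h3 := Finset.sum_range_id_mul_two (k + 1)
      rw [this] at h3
      simpa [mul_comm] using h3
    have h3 : (0 : ℝ) ≤ ∏ j : Fin k, Q ^ ((j : ℕ) + 1) :=
      Finset.prod_nonneg fun _ _ => by positivity
    calc Q ^ (k + 1) ^ 2 = (∏ j : Fin k, Q ^ ((j : ℕ) + 1)) ^ 2 * Q ^ (k + 1) := by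
          rw [h2, ← pow_add]; congr 1; ring
      _ ≤ ((2 * M) ^ k * ∏ j : Fin k, (T j : ℝ)) ^ 2 * (2 * M * T k) :=
          mul_le_mul (pow_le_pow_left₀ h3 h1 2) (hT1 k) (by positivity) (by positivity)
      _ = _ := by ring
  · -- the properties of the parameters
    intro t ht
    obtain ⟨⟨t1, t2, r⟩, hm, rfl⟩ := Finset.mem_image.1 ht
    simp only [J, Finset.mem_product, Fintype.mem_piFinset, Finset.mem_range] at hm
    obtain ⟨m1, m2, m3⟩ := hm
    have hN221 : (N : ℝ) ≤ 221 := by exact_mod_cast hle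
    have hbnd : ∀ (c t : ℕ), c < N → ((c + N * t : ℕ) : ℝ) ≤ 221 * (t + 1) := by
      intro c t hc
      have h1 : (c : ℝ) ≤ N := by exact_mod_cast hc.le
      push_cast
      have h2 : (0 : ℝ) ≤ t := Nat.cast_nonneg t
      nlinarith
    have hcA : ((N : ℕ) : ZMod l1) = 0 := (ZMod.natCast_eq_zero_iff _ _).2 (Dvd.intro _ rfl)
    have hcB : ((N : ℕ) : ZMod l2) = 0 := (ZMod.natCast_eq_zero_iff _ _).2 (Dvd.intro_left _ rfl)
    have hQ' : Real.sqrt ((p ^ a : ℕ) : ℝ) = Q := by rw [hQ, Nat.cast_pow]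
    refine ⟨Nat.one_pos, ⟨fun j => ?_, ?_⟩, ?_, ?_, ?_⟩
    · rw [hQ']
      refine le_trans ?_ (hT2 j (max (t1 j) (t2 j)) (max_lt (m1 j) (m2 j)))
      refine mul_le_mul_of_nonneg_left ?_ (by positivity)
      refine (norm_al _ _ j).trans ?_
      simp only [F]
      rw [Int.cast_natCast, Int.cast_natCast, Nat.abs_cast, Nat.abs_cast]
      have h1 := hbnd _ (t1 j) (hx0 j)
      have h2 := hbnd _ (t2 j) (hy0 j)
      have h3 : (t1 j : ℝ) ≤ (max (t1 j) (t2 j) : ℕ) := by exact_mod_cast le_max_left _ _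
      have h4 : (t2 j : ℝ) ≤ (max (t1 j) (t2 j) : ℕ) := by exact_mod_cast le_max_right _ _
      linarith
    · rw [hQ']
      refine le_trans ?_ (hT2 k r m3)
      refine mul_le_mul_of_nonneg_left ?_ (by positivity)
      simp only [F]
      rw [Int.cast_natCast, Nat.abs_cast]
      have h1 : ((bb p N b0 r : ℕ) : ℝ) ≤ ((b0 + N * (2 * r + 1) : ℕ) : ℝ) := by
        exact_mod_cast bb_le p N b0 r
      have h2 := hbnd _ (2 * r + 1) hb0
      push_cast at h2 h1
      linarith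
    · simp only [F]
      rw [Int.natCast_dvd_natCast]
      exact bb_not_dvd p N b0 r hpN
    · refine ⟨l1, f1, s1, by omega, hq1, hsA, by rw [hs1]; simp [F], ?_⟩
      have e1 : ∀ j, (((F (t1, t2, r)).2.1 j : ℤ) : ZMod l1) = xA j := by
        intro j
        simp only [F]
        rw [Int.cast_natCast]
        push_cast
        rw [hcA, hx1]; ring
      have e2 : ∀ j, (((F (t1, t2, r)).2.2.1 j : ℤ) : ZMod l1) = yA j := by
        intro j
        simp only [F]
        rw [Int.cast_natCast]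
        push_cast
        rw [hcA, hy1]; ring
      have e3 : (((F (t1, t2, r)).2.2.2 : ℤ) : ZMod l1) = bA := by
        simp only [F]
        rw [Int.cast_natCast, bb_cast p N b0 r l1 (Dvd.intro _ rfl), hb1]
      simp only [e1, e2, e3]
      exact hPA
    · refine ⟨l2, f2, s2, by omega, hq2, hsB, by rw [hs2]; simp [F], ?_⟩
      have e1 : ∀ j, (((F (t1, t2, r)).2.1 j : ℤ) : ZMod l2) = 0 := by
        intro j
        simp only [F]
        rw [Int.cast_natCast]
        push_cast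
        rw [hcB, hx2]; ring
      have e2 : ∀ j, (((F (t1, t2, r)).2.2.1 j : ℤ) : ZMod l2) = 0 := by
        intro j
        simp only [F]
        rw [Int.cast_natCast]
        push_cast
        rw [hcB, hy2]; ring
      have e3 : (((F (t1, t2, r)).2.2.2 : ℤ) : ZMod l2) = bB := by
        simp only [F]
        rw [Int.cast_natCast, bb_cast p N b0 r l2 (Dvd.intro_left _ rfl), hb2]
      simp only [e1, e2, e3, mul_zero, add_zero, sub_zero]
      exact hPB
  · -- injectivity
    intro t ht t' ht' h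
    obtain ⟨u, _, rfl⟩ := Finset.mem_image.1 (Finset.mem_coe.1 ht)
    obtain ⟨u', _, rfl⟩ := Finset.mem_image.1 (Finset.mem_coe.1 ht')
    obtain ⟨h1, h2, h3⟩ := hC_inj k (p ^ a) _ _ _ _ _ _ h
    exact Prod.ext rfl (Prod.ext h1 (Prod.ext h2 h3))

end Pool.Agent.H955.WT
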