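import Pool.Agent.H857.WT.Core

/-!
# W15b: many good parameters for `k = 1, 2`
-/

set_option autoImplicit false

namespace Pool.Agent.H969.WTw15b

open Module Polynomial Pool.Agent.H857.WT

/-- Chinese remainders with a representative in `[1, l₁ l₂]` -/
theorem crt {l₁ l₂ : ℕ} (h : Nat.Coprime l₁ l₂) (h1 : 0 < l₁) (h2 : 0 < l₂) (u : ZMod l₁)
    (v : ZMod l₂) : ∃ c : ℕ, 1 ≤ c ∧ c ≤ l₁ * l₂ ∧ (c : ZMod l₁) = u ∧ (c : ZMod l₂) = v := by
  have : NeZero (l₁ * l₂) := ⟨(Nat.mul_pos h1 h2).ne'⟩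
  obtain ⟨z, hz⟩ : ∃ z, z = (ZMod.chineseRemainder h).symm (u, v) := ⟨_, rfl⟩
  have hc1 : ((z.val : ZMod (l₁ * l₂))) = z := ZMod.natCast_zmod_val z
  have h3 : ZMod.chineseRemainder h (z.val : ZMod (l₁ * l₂)) = (u, v) := by
    rw [hc1, hz, RingEquiv.apply_symm_apply]
  rw [map_natCast] at h3
  have h4 : (z.val : ZMod l₁) = u := by
    have := congrArg Prod.fst h3
    rwa [Prod.fst_natCast] at this
  have h5 : (z.val : ZMod l₂) = v := by
    have := congrArg Prod.snd h3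
    rwa [Prod.snd_natCast] at this
  by_cases h0 : z.val = 0
  · refine ⟨l₁ * l₂, Nat.mul_pos h1 h2, le_rfl, ?_, ?_⟩
    · rw [h0] at h4
      rw [Nat.cast_mul, ZMod.natCast_self, zero_mul, ← h4, Nat.cast_zero]
    · rw [h0] at h5
      rw [Nat.cast_mul, ZMod.natCast_self, mul_zero, ← h5, Nat.cast_zero]
  · exact ⟨z.val, by omega, (ZMod.val_lt z).le, h4, h5⟩

theorem choose_primes (p : ℕ) : ∃ lA lB : ℕ, lA.Prime ∧ lB.Prime ∧
    (lA = 3 ∨ lA = 5) ∧ lA ≠ 2 ∧ lB ≠ 2 ∧ lA ≠ lB ∧ lA ≠ p ∧ lB ≠ p ∧ lA * lB ≤ 35 := by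
  by_cases h3 : p = 3
  · exact ⟨5, 7, by norm_num, by norm_num, Or.inr rfl, by norm_num, by norm_num, by norm_num,
      by omega, by omega, by norm_num⟩
  by_cases h5 : p = 5
  · exact ⟨3, 7, by norm_num, by norm_num, Or.inl rfl, by norm_num, by norm_num, by norm_num,
      by omega, by omega, by norm_num⟩
  · exact ⟨3, 5, by norm_num, by norm_num, Or.inl rfl, by norm_num, by norm_num, by norm_num,
      by omega, by omega, by norm_num⟩

theorem cast_ne {p l : ℕ} (hp : p.Prime) (hl : l.Prime) (h : l ≠ p) (a : ℕ) :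
    ((p ^ a : ℕ) : ZMod l) ≠ 0 := by
  have : Fact l.Prime := ⟨hl⟩
  rw [Nat.cast_pow]
  refine pow_ne_zero _ fun h0 => ?_
  rw [ZMod.natCast_eq_zero_iff] at h0
  exact h ((Nat.prime_dvd_prime_iff_eq hl hp).1 h0)

theorem coeff1 (q : ℂ) (u v : Fin 1 → ℂ) (b : ℂ) :
    (hpoly 1 q u v b).coeff 3 = u 0 ∧ (hpoly 1 q u v b).coeff 2 = b := by
  unfold hpoly
  rw [Fin.sum_univ_one]
  constructor
  · simp only [coeff_add, coeff_C_mul, coeff_X_pow, coeff_C, Fin.val_zero]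
    norm_num
  · simp only [coeff_add, coeff_C_mul, coeff_X_pow, coeff_C, Fin.val_zero]
    norm_num

theorem coeff2 (q : ℂ) (u v : Fin 2 → ℂ) (b : ℂ) : (hpoly 2 q u v b).coeff 5 = u 0 ∧
    (hpoly 2 q u v b).coeff 4 = u 1 ∧ (hpoly 2 q u v b).coeff 3 = b := by
  unfold hpoly
  rw [Fin.sum_univ_two]
  refine ⟨?_, ?_, ?_⟩
  · simp only [coeff_add, coeff_C_mul, coeff_X_pow, coeff_C, Fin.val_zero, Fin.val_one]
    norm_num
  · simp only [coeff_add, coeff_C_mul, coeff_X_pow, coeff_C, Fin.val_zero, Fin.val_one]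
    norm_num
  · simp only [coeff_add, coeff_C_mul, coeff_X_pow, coeff_C, Fin.val_zero, Fin.val_one]
    norm_num

/-- the coefficients determine the parameters -/
theorem inj_hC {k : ℕ} (hk : k = 1 ∨ k = 2) {q d d' : ℕ} {x x' y : Fin k → ℤ} {b b' : ℤ}
    (hy : ∀ j : Fin k, (j : ℕ) + 1 = k → y j = 1)
    (h : hC k q d x y b = hC k q d' x' y b') : d = d' ∧ x = x' ∧ b = b' := by
  have key : (∀ j, al d x y j = al d' x' y j) ∧ (b : ℂ) = b' := by
    unfold hC at h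
    rcases hk with rfl | rfl
    · have c3 := congrArg (fun P : ℂ[X] => P.coeff 3) h
      have c2 := congrArg (fun P : ℂ[X] => P.coeff 2) h
      simp only [(coeff1 _ _ _ _).1, (coeff1 _ _ _ _).2] at c3 c2
      refine ⟨fun j => ?_, c2⟩
      fin_cases j
      exact c3
    · have c5 := congrArg (fun P : ℂ[X] => P.coeff 5) h
      have c4 := congrArg (fun P : ℂ[X] => P.coeff 4) h
      have c3 := congrArg (fun P : ℂ[X] => P.coeff 3) h
      simp only [(coeff2 _ _ _ _).1, (coeff2 _ _ _ _).2.1, (coeff2 _ _ _ _).2.2] at c5 c4 c3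
      refine ⟨fun j => ?_, c3⟩
      fin_cases j
      · exact c5
      · exact c4
  obtain ⟨h1, h2⟩ := key
  have hre : ∀ j, x j = x' j := by
    intro j
    have h3 := congrArg Complex.re (h1 j)
    unfold al at h3
    simp at h3
    exact_mod_cast h3
  have hk0 : 0 < k := by rcases hk with rfl | rfl <;> norm_num
  have him := congrArg Complex.im (h1 ⟨k - 1, by omega⟩)
  unfold al at him
  rw [hy ⟨k - 1, by omega⟩ (by show k - 1 + 1 = k; omega)] at him
  simp at him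
  have hd : (d : ℝ) = d' := by
    have e1 := Real.sq_sqrt (Nat.cast_nonneg d : (0 : ℝ) ≤ d)
    have e2 := Real.sq_sqrt (Nat.cast_nonneg d' : (0 : ℝ) ≤ d')
    rw [← e1, ← e2, him]
  exact ⟨by exact_mod_cast hd, funext hre, by exact_mod_cast h2⟩

theorem fl {t : ℝ} (ht : 1 ≤ t) : t / 2 ≤ (⌊t⌋₊ : ℝ) := by
  have h1 : 1 ≤ ⌊t⌋₊ := Nat.le_floor (by simpa using ht)
  have h2 := Nat.lt_floor_add_one t
  have h3 : (1 : ℝ) ≤ ⌊t⌋₊ := by exact_mod_cast h1
  linarith

theorem w15b (hS : W4S) (hB : W4B) : W15b := by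
  classical
  intro k hk
  have hk1 : 1 ≤ k := by rcases hk with rfl | rfl <;> norm_num
  have hk2 : k ≤ 2 := by rcases hk with rfl | rfl <;> norm_num
  refine ⟨(5040 : ℝ) ^ 4, by norm_num, ?_⟩
  intro p hpf a ha hC0
  have hp := hpf.out
  obtain ⟨lA, lB, hlA, hlB, hlA35, hlA2, hlB2, hne, hAp, hBp, hN35⟩ := choose_primes p
  have : Fact lA.Prime := ⟨hlA⟩
  have : Fact lB.Prime := ⟨hlB⟩
  have hcop : Nat.Coprime lA lB := (Nat.coprime_primes hlA hlB).2 hne
  have hqA := cast_ne hp hlA hAp a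
  have hqB := cast_ne hp hlB hBp a
  obtain ⟨sA, xA, bA, hsA, hPA⟩ := hS k hk lA hlA35 _ hqA
  obtain ⟨y, hy⟩ : ∃ y : Fin k → ℤ,
      y = (fun j : Fin k => if (j : ℕ) + 1 = k then (1 : ℤ) else 0) :=
    ⟨_, rfl⟩
  have hy1 : ∀ j : Fin k, (j : ℕ) + 1 = k → y j = 1 := fun j hj => by rw [hy]; exact if_pos hj
  have hy0 : ∀ j : Fin k, (j : ℕ) + 1 ≠ k → y j = 0 := fun j hj => by rw [hy]; exact if_neg hj
  obtain ⟨bB, hPB⟩ := hB lB k _ hqB (fun j => ((0 : ZMod lB)) + 1 * (y j : ZMod lB))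
    (fun j => ((0 : ZMod lB)) - 1 * (y j : ZMod lB))
  obtain ⟨d₀, hd1, hd2, hdA, hdB⟩ := crt hcop hlA.pos hlB.pos (-(sA ^ 2)) (-1)
  choose x₀ hx1 hx2 hxA hxB using fun j : Fin k =>
    crt hcop hlA.pos hlB.pos (xA j) (0 : ZMod lB)
  obtain ⟨b₀, hb1, hb2, hbA, hbB⟩ := crt hcop hlA.pos hlB.pos bA bB
  obtain ⟨N, hN⟩ : ∃ N : ℕ, N = lA * lB := ⟨_, rfl⟩
  rw [← hN] at hd2 hb2 hN35
  have hx2' : ∀ j, x₀ j ≤ N := fun j => by rw [hN]; exact hx2 j
  have hN0 : 0 < N := by rw [hN]; exact Nat.mul_pos hlA.pos hlB.pos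
  have hNA : (N : ZMod lA) = 0 := by rw [hN, Nat.cast_mul, ZMod.natCast_self, zero_mul]
  have hNB : (N : ZMod lB) = 0 := by rw [hN, Nat.cast_mul, ZMod.natCast_self, mul_zero]
  have hpN : ¬ ((p : ℤ) ∣ (N : ℤ)) := by
    intro h
    have h1 : p ∣ lA * lB := by rw [← hN]; exact_mod_cast h
    rcases (Nat.Prime.dvd_mul hp).1 h1 with h2 | h2
    · exact hAp ((Nat.prime_dvd_prime_iff_eq hp hlA).1 h2).symm
    · exact hBp ((Nat.prime_dvd_prime_iff_eq hp hlB).1 h2).symm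
  -- the values of `b`
  obtain ⟨ε, hε⟩ : ∃ ε : ℕ → ℕ, ε = (fun m : ℕ =>
    if (p : ℤ) ∣ ((b₀ : ℤ) + N * (2 * m)) then 1 else 0) := ⟨_, rfl⟩
  have hε1 : ∀ m, ε m ≤ 1 := fun m => by
    rw [hε]
    simp only []
    split_ifs <;> norm_num
  obtain ⟨g, hg⟩ : ∃ g : ℕ → ℕ, g = (fun m : ℕ => b₀ + N * (2 * m + ε m)) := ⟨_, rfl⟩
  have hgp : ∀ m, ¬ ((p : ℤ) ∣ (g m : ℤ)) := by
    intro m hm
    have e1 : (g m : ℤ) = (b₀ : ℤ) + N * (2 * m) + N * ε m := by
      rw [hg]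
      push_cast
      ring
    rw [e1] at hm
    by_cases h : (p : ℤ) ∣ ((b₀ : ℤ) + N * (2 * m))
    · have e2 : ε m = 1 := by rw [hε]; exact if_pos h
      rw [e2, Nat.cast_one, mul_one] at hm
      exact hpN ((Int.dvd_add_right h).1 hm)
    · have e2 : ε m = 0 := by rw [hε]; exact if_neg h
      rw [e2, Nat.cast_zero, mul_zero, add_zero] at hm
      exact h hm
  have hginj : ∀ m m', g m = g m' → m = m' := by
    intro m m' h
    rw [hg] at h
    simp only [] at h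
    have h2 : 2 * m + ε m = 2 * m' + ε m' := Nat.eq_of_mul_eq_mul_left hN0 (by omega)
    have := hε1 m
    have := hε1 m'
    omega
  have hgN : ∀ m M, m < M → g m ≤ 2 * N * M := by
    intro m M hm
    have h1 : g m ≤ N + N * (2 * m + 1) := by
      rw [hg]
      exact Nat.add_le_add hb2 (Nat.mul_le_mul_left _ (by have := hε1 m; omega))
    have h2 : N + N * (2 * m + 1) = 2 * N * (m + 1) := by ring
    have h3 : 2 * N * (m + 1) ≤ 2 * N * M := Nat.mul_le_mul_left _ hm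
    omega
  -- the square root
  obtain ⟨r, hr⟩ : ∃ r : ℝ, r = Real.sqrt ((p : ℝ) ^ a) := ⟨_, rfl⟩
  have hr0 : 0 ≤ r := by rw [hr]; exact Real.sqrt_nonneg _
  have hrq : Real.sqrt ((p ^ a : ℕ) : ℝ) = r := by rw [hr]; push_cast; rfl
  have hrK : 2520 ≤ r := by
    rw [hr]
    apply Real.le_sqrt_of_sq_le
    have : (2520 : ℝ) ^ 2 ≤ 5040 ^ 4 := by norm_num
    linarith
  have hpow : ∀ e : ℕ, 1 ≤ e → 2520 ≤ r ^ e := by
    intro e he
    calc (2520 : ℝ) ≤ r := hrK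
      _ = r ^ 1 := (pow_one r).symm
      _ ≤ r ^ e := pow_le_pow_right₀ (by linarith) he
  obtain ⟨M, hM⟩ : ∃ M : ℕ → ℕ, M = (fun e : ℕ => ⌊r ^ e / 2520⌋₊) := ⟨_, rfl⟩
  have hMle : ∀ e, (M e : ℝ) ≤ r ^ e / 2520 := fun e => by
    rw [hM]
    exact Nat.floor_le (by positivity)
  have hMge : ∀ e, 1 ≤ e → r ^ e / 5040 ≤ (M e : ℝ) := fun e he => by
    rw [hM]
    have h1 : (1 : ℝ) ≤ r ^ e / 2520 := by
      rw [le_div_iff₀ (by norm_num)]
      linarith [hpow e he]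
    have h2 := fl h1
    have h3 : r ^ e / 2520 / 2 = r ^ e / 5040 := by ring
    rw [h3] at h2
    exact h2
  have hNM : ∀ e, (N : ℝ) * M e ≤ r ^ e / 72 := fun e => by
    have h1 : (N : ℝ) ≤ 35 := by exact_mod_cast hN35
    calc (N : ℝ) * M e ≤ 35 * (r ^ e / 2520) :=
          mul_le_mul h1 (hMle e) (Nat.cast_nonneg _) (by norm_num)
      _ = r ^ e / 72 := by ring
  -- the parameters
  obtain ⟨φ, hφ⟩ : ∃ φ : ℕ × (Fin k → ℕ) × ℕ → ℕ × (Fin k → ℤ) × (Fin k → ℤ) × ℤ,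
      φ = (fun t : ℕ × (Fin k → ℕ) × ℕ =>
        (d₀ + N * t.1, fun j => ((x₀ j + N * t.2.1 j : ℕ) : ℤ), y, (g t.2.2 : ℤ))) := ⟨_, rfl⟩
  obtain ⟨S₀, hS₀⟩ : ∃ S₀ : Finset (ℕ × (Fin k → ℕ) × ℕ), S₀ = Finset.range (M (2 * k)) ×ˢ
      (Fintype.piFinset (fun j : Fin k => Finset.range (M ((j : ℕ) + 1))) ×ˢ
        Finset.range (M (k + 1))) := ⟨_, rfl⟩
  have hφinj : Function.Injective φ := by
    rintro ⟨m1, m2, m3⟩ ⟨m1', m2', m3'⟩ h
    rw [hφ] at h
    simp only [Prod.mk.injEq, true_and] at h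
    obtain ⟨e1, e2, e3⟩ := h
    have f1 : m1 = m1' := Nat.eq_of_mul_eq_mul_left hN0 (by omega)
    have f2 : m2 = m2' := by
      funext j
      have e4 := congrFun e2 j
      have e5 : x₀ j + N * m2 j = x₀ j + N * m2' j := by exact_mod_cast e4
      exact Nat.eq_of_mul_eq_mul_left hN0 (by omega)
    have f3 : m3 = m3' := hginj _ _ (by exact_mod_cast e3)
    rw [f1, f2, f3]
  refine ⟨S₀.image φ, ?_, ?_, ?_⟩
  · rw [Finset.card_image_of_injective _ hφinj, hS₀, Finset.card_product, Finset.card_product,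
      Fintype.card_piFinset, Finset.card_range, Finset.card_range]
    simp only [Finset.card_range]
    rw [← hr]
    rcases hk with rfl | rfl
    · have o : order (1 + 1) = 5 := rfl
      rw [o]
      simp only [Finset.univ_unique, Finset.prod_singleton]
      have h1 := hMge (2 * 1) (by norm_num)
      have h2 := hMge 1 (by norm_num)
      have h3 := hMge (1 + 1) (by norm_num)
      have h4 : r ^ (2 * 1) / 5040 * (r ^ 1 / 5040 * (r ^ (1 + 1) / 5040)) ≤
          (M (2 * 1) : ℝ) * (M 1 * M (1 + 1)) :=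
        mul_le_mul h1 (mul_le_mul h2 h3 (by positivity) (by positivity)) (by positivity)
          (by positivity)
      have h5 : r ^ (2 * 1) / 5040 * (r ^ 1 / 5040 * (r ^ (1 + 1) / 5040)) = r ^ 5 / 5040 ^ 3 := by
        ring
      rw [h5, div_le_iff₀ (by norm_num)] at h4
      push_cast
      have h6 : (0 : ℝ) ≤ (M (2 * 1) : ℝ) * (M 1 * M (1 + 1)) := by positivity
      refine h4.trans ?_
      show (M (2 * 1) : ℝ) * (M 1 * M (1 + 1)) * 5040 ^ 3 ≤
        5040 ^ 4 * ((M (2 * 1) : ℝ) * (M 1 * M (1 + 1)))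
      nlinarith
    · have o : order (2 + 1) = 10 := rfl
      rw [o, Fin.prod_univ_two]
      have h1 := hMge (2 * 2) (by norm_num)
      have h2 := hMge 1 (by norm_num)
      have h2' := hMge 2 (by norm_num)
      have h3 := hMge (2 + 1) (by norm_num)
      have h4 : r ^ (2 * 2) / 5040 * ((r ^ 1 / 5040 * (r ^ 2 / 5040)) * (r ^ (2 + 1) / 5040)) ≤
          (M (2 * 2) : ℝ) * ((M 1 * M 2) * M (2 + 1)) :=
        mul_le_mul h1 (mul_le_mul (mul_le_mul h2 h2' (by positivity) (by positivity)) h3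
          (by positivity) (by positivity)) (by positivity) (by positivity)
      have h5 : r ^ (2 * 2) / 5040 * ((r ^ 1 / 5040 * (r ^ 2 / 5040)) * (r ^ (2 + 1) / 5040)) =
          r ^ 10 / 5040 ^ 4 := by
        ring
      rw [h5, div_le_iff₀ (by norm_num)] at h4
      push_cast
      refine h4.trans (le_of_eq ?_)
      show (M (2 * 2) : ℝ) * ((M 1 * M 2) * M (2 + 1)) * 5040 ^ 4 =
        5040 ^ 4 * ((M (2 * 2) : ℝ) * ((M 1 * M 2) * M (2 + 1)))
      ring
  · intro t ht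
    obtain ⟨⟨m1, m2, m3⟩, hm, rfl⟩ := Finset.mem_image.1 ht
    rw [hS₀, Finset.mem_product, Finset.mem_product, Fintype.mem_piFinset, Finset.mem_range,
      Finset.mem_range] at hm
    obtain ⟨hm1, hm2, hm3⟩ := hm
    simp only [Finset.mem_range] at hm1 hm2 hm3
    rw [hφ]
    simp only []
    have hxle : ∀ j, ((x₀ j + N * m2 j : ℕ) : ℝ) ≤ r ^ ((j : ℕ) + 1) / 72 := by
      intro j
      have h1 : x₀ j + N * m2 j ≤ N * M ((j : ℕ) + 1) := by
        calc x₀ j + N * m2 j ≤ N + N * m2 j := Nat.add_le_add_right (hx2' j) _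
          _ = N * (m2 j + 1) := by ring
          _ ≤ N * M ((j : ℕ) + 1) := Nat.mul_le_mul_left _ (hm2 j)
      have h2 : ((x₀ j + N * m2 j : ℕ) : ℝ) ≤ (N : ℝ) * M ((j : ℕ) + 1) := by exact_mod_cast h1
      exact h2.trans (hNM _)
    have hdle : ((d₀ + N * m1 : ℕ) : ℝ) ≤ r ^ (2 * k) / 72 := by
      have h1 : d₀ + N * m1 ≤ N * M (2 * k) := by
        calc d₀ + N * m1 ≤ N + N * m1 := Nat.add_le_add_right hd2 _
          _ = N * (m1 + 1) := by ring
          _ ≤ N * M (2 * k) := Nat.mul_le_mul_left _ hm1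
      have h2 : ((d₀ + N * m1 : ℕ) : ℝ) ≤ (N : ℝ) * M (2 * k) := by exact_mod_cast h1
      exact h2.trans (hNM _)
    have hsd : Real.sqrt ((d₀ + N * m1 : ℕ) : ℝ) ≤ r ^ k / 8 := by
      apply Real.sqrt_le_iff.2
      refine ⟨by positivity, hdle.trans ?_⟩
      have h1 : (r ^ k / 8) ^ 2 = r ^ (2 * k) / 64 := by
        rw [div_pow, ← pow_mul, mul_comm k 2]
        norm_num
      rw [h1]
      have : 0 ≤ r ^ (2 * k) := by positivity
      linarith
    have hgle : ((g m3 : ℕ) : ℝ) ≤ r ^ (k + 1) / 36 := by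
      have h1 : ((g m3 : ℕ) : ℝ) ≤ 2 * ((N : ℝ) * M (k + 1)) := by
        have := hgN m3 _ hm3
        have h2 : ((g m3 : ℕ) : ℝ) ≤ ((2 * N * M (k + 1) : ℕ) : ℝ) := by exact_mod_cast this
        refine h2.trans (le_of_eq ?_)
        push_cast
        ring
      have := hNM (k + 1)
      linarith
    have hkR : (k : ℝ) ≤ 2 := by exact_mod_cast hk2
    have hk0 : (0 : ℝ) ≤ (k : ℝ) := Nat.cast_nonneg k
    refine ⟨by omega, ⟨?_, ?_⟩, hgp m3, ?_, ?_⟩
    · intro j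
      rw [hrq]
      have hrj : 0 ≤ r ^ ((j : ℕ) + 1) := by positivity
      have h1 : ‖al (d₀ + N * m1) (fun j => ((x₀ j + N * m2 j : ℕ) : ℤ)) y j‖ ≤
          r ^ ((j : ℕ) + 1) / 72 + r ^ ((j : ℕ) + 1) / 8 := by
        unfold al
        refine (norm_add_le _ _).trans (add_le_add ?_ ?_)
        · rw [Int.cast_natCast, Complex.norm_natCast]
          exact hxle j
        · by_cases hj : (j : ℕ) + 1 = k
          · rw [hy1 j hj, Int.cast_one, one_mul, norm_mul, Complex.norm_I, mul_one,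
              Complex.norm_real, Real.norm_eq_abs, abs_of_nonneg (Real.sqrt_nonneg _), hj]
            exact hsd
          · rw [hy0 j hj, Int.cast_zero, zero_mul, norm_zero]
            positivity
      calc ((k : ℝ) + 1) * ‖al (d₀ + N * m1) (fun j => ((x₀ j + N * m2 j : ℕ) : ℤ)) y j‖
          ≤ 3 * (r ^ ((j : ℕ) + 1) / 72 + r ^ ((j : ℕ) + 1) / 8) :=
            mul_le_mul (by linarith) h1 (norm_nonneg _) (by norm_num)
        _ ≤ r ^ ((j : ℕ) + 1) := by linarith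
    · rw [hrq, Int.cast_natCast, abs_of_nonneg (Nat.cast_nonneg _)]
      have hrj : 0 ≤ r ^ (k + 1) := by positivity
      calc ((k : ℝ) + 1) * ((g m3 : ℕ) : ℝ) ≤ 3 * (r ^ (k + 1) / 36) :=
            mul_le_mul (by linarith) hgle (Nat.cast_nonneg _) (by norm_num)
        _ ≤ r ^ (k + 1) := by linarith
    · refine ⟨lA, inferInstance, sA, hlA2, hqA, hsA, ?_, ?_⟩
      · rw [Nat.cast_add, Nat.cast_mul, hNA, zero_mul, add_zero, hdA, neg_neg]
      · have e1 : (fun j => (((x₀ j + N * m2 j : ℕ) : ℤ) : ZMod lA) + sA * (y j : ZMod lA)) =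
            fun j => xA j + sA * (if (j : ℕ) + 1 = k then 1 else 0) := by
          funext j
          rw [Int.cast_natCast, Nat.cast_add, Nat.cast_mul, hNA, zero_mul, add_zero, hxA, hy]
          simp
        have e2 : (fun j => (((x₀ j + N * m2 j : ℕ) : ℤ) : ZMod lA) - sA * (y j : ZMod lA)) =
            fun j => xA j - sA * (if (j : ℕ) + 1 = k then 1 else 0) := by
          funext j
          rw [Int.cast_natCast, Nat.cast_add, Nat.cast_mul, hNA, zero_mul, add_zero, hxA, hy]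
          simp
        have e3 : (((g m3 : ℕ) : ℤ) : ZMod lA) = bA := by
          rw [Int.cast_natCast, hg, Nat.cast_add, Nat.cast_mul, hNA, zero_mul, add_zero, hbA]
        rw [e1, e2, e3]
        exact hPA
    · refine ⟨lB, inferInstance, 1, hlB2, hqB, one_ne_zero, ?_, ?_⟩
      · rw [Nat.cast_add, Nat.cast_mul, hNB, zero_mul, add_zero, hdB, neg_neg, one_pow]
      · have e1 : (fun j => (((x₀ j + N * m2 j : ℕ) : ℤ) : ZMod lB) + 1 * (y j : ZMod lB)) =
            fun j => (0 : ZMod lB) + 1 * (y j : ZMod lB) := by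
          funext j
          rw [Int.cast_natCast, Nat.cast_add, Nat.cast_mul, hNB, zero_mul, add_zero, hxB]
        have e2 : (fun j => (((x₀ j + N * m2 j : ℕ) : ℤ) : ZMod lB) - 1 * (y j : ZMod lB)) =
            fun j => (0 : ZMod lB) - 1 * (y j : ZMod lB) := by
          funext j
          rw [Int.cast_natCast, Nat.cast_add, Nat.cast_mul, hNB, zero_mul, add_zero, hxB]
        have e3 : (((g m3 : ℕ) : ℤ) : ZMod lB) = bB := by
          rw [Int.cast_natCast, hg, Nat.cast_add, Nat.cast_mul, hNB, zero_mul, add_zero, hbB]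
        rw [e1, e2, e3]
        exact hPB
  · intro t ht t' ht' h
    rw [Finset.mem_coe, Finset.mem_image] at ht ht'
    obtain ⟨u, -, rfl⟩ := ht
    obtain ⟨u', -, rfl⟩ := ht'
    rw [hφ] at h ⊢
    simp only [] at h ⊢
    obtain ⟨e1, e2, e3⟩ := inj_hC hk hy1 h
    rw [e1, e2, e3]

end Pool.Agent.H969.WTw15b
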