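import Pool.Agent.H857.WT.Core

/-!
# The number of the pairs (ζ, a) (task W18)
-/

set_option autoImplicit false

namespace Pool.Agent.H271.WTw18

open Module Polynomial Pool.Agent.H857.WT

/-- the integral real parts -/
def XS (n : ℕ) (B Q : ℝ) : Set (Fin n → ℝ) :=
  {x | ∀ j, (∃ k : ℤ, x j = k) ∧ |x j| ≤ B * Q ^ ((j : ℕ) + 1)}

/-- the imaginary parts -/
def TS (n : ℕ) (B Q : ℝ) : Set (Fin n → ℝ) :=
  {Y | (∀ i j, ∃ k : ℤ, Y i * Y j = k) ∧ ∀ j, |Y j| ≤ B * Q ^ ((j : ℕ) + 1)}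

/-- the numbers `ζ` -/
def ZS : Set ℂ := {z | ‖z‖ = 1 ∧ ∃ n : ℤ, z + (starRingEnd ℂ) z = n}

lemma zs_finite : ZS.Finite := by
  refine Set.Finite.subset ((Set.finite_Icc (-2 : ℤ) 2).biUnion fun n _ =>
    (X ^ 2 - C (n : ℂ) * X + 1 : ℂ[X]).rootSet_finite ℂ) ?_
  rintro z ⟨h1, n, hn⟩
  have h2 : (2 * z.re : ℝ) = n := by
    rw [Complex.add_conj] at hn
    exact_mod_cast hn
  have h3 : |z.re| ≤ 1 := h1 ▸ Complex.abs_re_le_norm z
  have h4 := abs_le.1 h3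
  rw [Set.mem_iUnion₂]
  refine ⟨n, ⟨?_, ?_⟩, ?_⟩
  · have : (-2 : ℝ) ≤ n := by linarith [h4.1]
    exact_mod_cast this
  · have : (n : ℝ) ≤ 2 := by linarith [h4.2]
    exact_mod_cast this
  · rw [mem_rootSet]
    constructor
    · intro h0
      have h5 := congrArg (fun p : ℂ[X] => p.eval 0) h0
      simp at h5
    · have h6 : z * (starRingEnd ℂ) z = 1 := by
        rw [Complex.mul_conj, Complex.normSq_eq_norm_sq, h1]
        norm_num
      simp only [map_add, map_sub, map_mul, map_pow, aeval_X, aeval_C, map_one]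
      simp only [Algebra.algebraMap_self, RingHom.id_apply]
      rw [← hn]
      linear_combination -h6

lemma sum_fin (n : ℕ) : ∑ j : Fin n, ((j : ℕ) + 1) = n * (n + 1) / 2 := by
  have h : (∑ j : Fin n, ((j : ℕ) + 1)) * 2 = n * (n + 1) := by
    induction n with
    | zero => simp
    | succ n ih =>
      rw [Fin.sum_univ_castSucc, add_mul]
      simp only [Fin.val_castSucc, Fin.val_last]
      rw [ih]
      ring
  omega

lemma xs_card (n : ℕ) (B Q : ℝ) (hB : 0 < B) (hQ : 1 ≤ Q) :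
    (XS n B Q).Finite ∧ ((XS n B Q).ncard : ℝ) ≤ (2 * B + 1) ^ n * Q ^ (n * (n + 1) / 2) := by
  classical
  set F : Finset (Fin n → ℤ) := Fintype.piFinset fun j =>
    Finset.Icc (-⌊B * Q ^ ((j : ℕ) + 1)⌋) ⌊B * Q ^ ((j : ℕ) + 1)⌋ with hF
  set G : Finset (Fin n → ℝ) := F.image fun x j => (x j : ℝ) with hG
  have hsub : XS n B Q ⊆ (G : Set (Fin n → ℝ)) := by
    intro x hx
    choose k hk using fun j => (hx j).1
    rw [hG, Finset.coe_image]
    refine ⟨k, ?_, ?_⟩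
    · rw [hF, Finset.mem_coe, Fintype.mem_piFinset]
      intro j
      have h1 := abs_le.1 (hx j).2
      rw [hk j] at h1
      rw [Finset.mem_Icc]
      constructor
      · rw [neg_le, Int.le_floor]
        push_cast
        linarith [h1.1]
      · rw [Int.le_floor]
        exact h1.2
    · funext j
      exact (hk j).symm
  have hfin : (XS n B Q).Finite := (Finset.finite_toSet G).subset hsub
  refine ⟨hfin, ?_⟩
  have h1 : (XS n B Q).ncard ≤ G.card := by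
    have := Set.ncard_le_ncard hsub (Finset.finite_toSet G)
    rwa [Set.ncard_coe_finset] at this
  have h2 : G.card ≤ F.card := Finset.card_image_le
  have h3 : (F.card : ℝ) ≤ (2 * B + 1) ^ n * Q ^ (n * (n + 1) / 2) := by
    rw [hF, Fintype.card_piFinset]
    push_cast
    have h4 : ∀ j : Fin n, (((Finset.Icc (-⌊B * Q ^ ((j : ℕ) + 1)⌋)
        ⌊B * Q ^ ((j : ℕ) + 1)⌋).card : ℕ) : ℝ) ≤ (2 * B + 1) * Q ^ ((j : ℕ) + 1) := by
      intro j
      have hq : 1 ≤ Q ^ ((j : ℕ) + 1) := one_le_pow₀ hQ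
      have h0 : 0 ≤ B * Q ^ ((j : ℕ) + 1) := by positivity
      have hf0 : 0 ≤ ⌊B * Q ^ ((j : ℕ) + 1)⌋ := Int.floor_nonneg.2 h0
      have hf1 : (⌊B * Q ^ ((j : ℕ) + 1)⌋ : ℝ) ≤ B * Q ^ ((j : ℕ) + 1) := Int.floor_le _
      rw [Int.card_Icc]
      have h5 : (((⌊B * Q ^ ((j : ℕ) + 1)⌋ + 1 - -⌊B * Q ^ ((j : ℕ) + 1)⌋).toNat : ℕ) : ℝ) =
          2 * (⌊B * Q ^ ((j : ℕ) + 1)⌋ : ℝ) + 1 := by
        have h6 : (((⌊B * Q ^ ((j : ℕ) + 1)⌋ + 1 - -⌊B * Q ^ ((j : ℕ) + 1)⌋).toNat : ℕ) : ℤ) =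
            2 * ⌊B * Q ^ ((j : ℕ) + 1)⌋ + 1 := by
          rw [Int.toNat_of_nonneg (by omega)]
          ring
        exact_mod_cast h6
      rw [h5]
      nlinarith
    calc ∏ j : Fin n, (((Finset.Icc (-⌊B * Q ^ ((j : ℕ) + 1)⌋)
        ⌊B * Q ^ ((j : ℕ) + 1)⌋).card : ℕ) : ℝ)
        ≤ ∏ j : Fin n, ((2 * B + 1) * Q ^ ((j : ℕ) + 1)) :=
          Finset.prod_le_prod (fun j _ => Nat.cast_nonneg _) fun j _ => h4 j
      _ = (2 * B + 1) ^ n * Q ^ (n * (n + 1) / 2) := by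
          rw [Finset.prod_mul_distrib, Finset.prod_const, Finset.card_univ, Fintype.card_fin,
            Finset.prod_pow_eq_pow_sum, sum_fin]
  calc ((XS n B Q).ncard : ℝ) ≤ (G.card : ℝ) := by exact_mod_cast h1
    _ ≤ (F.card : ℝ) := by exact_mod_cast h2
    _ ≤ _ := h3

lemma ts_card (h : W19) (n : ℕ) (B : ℝ) (hn : 1 ≤ n) (hB : 0 < B) :
    ∃ D : ℝ, 0 < D ∧ ∀ Q : ℝ, 1 ≤ Q → (TS n B Q).Finite ∧
      ((TS n B Q).ncard : ℝ) ≤ D * Q ^ max (2 * n) (n * (n + 1) / 2) := by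
  obtain ⟨D, hD, hh⟩ := h n B hn hB
  refine ⟨D + 1, by linarith, ?_⟩
  intro Q hQ
  obtain ⟨h1, h2⟩ := hh Q hQ
  set U : Set (Fin n → ℝ) := {Y : Fin n → ℝ | (∃ j, Y j ≠ 0) ∧
    (∀ i j, ∃ n : ℤ, Y i * Y j = n) ∧ ∀ j, |Y j| ≤ B * Q ^ ((j : ℕ) + 1)} with hU
  have hsub : TS n B Q ⊆ insert 0 U := by
    intro Y hY
    by_cases h0 : ∃ j, Y j ≠ 0
    · exact Set.mem_insert_of_mem _ ⟨h0, hY.1, hY.2⟩
    · left
      push Not at h0
      funext j
      exact h0 j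
  have hf : (insert 0 U).Finite := h1.insert 0
  refine ⟨hf.subset hsub, ?_⟩
  have h3 : (TS n B Q).ncard ≤ U.ncard + 1 :=
    (Set.ncard_le_ncard hsub hf).trans (Set.ncard_insert_le 0 U)
  have h4 : ((TS n B Q).ncard : ℝ) ≤ (U.ncard : ℝ) + 1 := by exact_mod_cast h3
  have h5 : (1 : ℝ) ≤ Q ^ max (2 * n) (n * (n + 1) / 2) := one_le_pow₀ hQ
  calc ((TS n B Q).ncard : ℝ) ≤ (U.ncard : ℝ) + 1 := h4
    _ ≤ D * Q ^ max (2 * n) (n * (n + 1) / 2) + Q ^ max (2 * n) (n * (n + 1) / 2) :=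
      add_le_add h2 h5
    _ = _ := by ring

lemma expo (r : ℕ) (hr : 1 ≤ r) :
    (r + 1) * (r + 1 + 1) / 2 + max (2 * r) (r * (r + 1) / 2) ≤ order (r + 1) ∧
    r * (r + 1) / 2 + max (2 * (r + 1)) ((r + 1) * (r + 1 + 1) / 2) ≤ order (r + 1) := by
  unfold order
  by_cases h1 : r = 1
  · subst h1; decide
  by_cases h2 : r = 2
  · subst h2; decide
  have h3 : 3 ≤ r := by omega
  rw [if_neg (by omega), if_neg (by omega)]
  obtain ⟨k, hk⟩ := Nat.even_mul_succ_self r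
  obtain ⟨l, hl⟩ := Nat.even_mul_succ_self (r + 1)
  have e1 : r * (r + 1) / 2 = k := by rw [hk]; omega
  have e2 : (r + 1) * (r + 1 + 1) / 2 = l := by rw [hl]; omega
  rw [e1, e2]
  have h5 : 2 * r ≤ k := by nlinarith
  have h6 : 2 * (r + 1) ≤ l := by nlinarith
  rw [max_eq_right h5, max_eq_right h6]
  constructor <;> nlinarith

theorem w18 (h : W19) : W18 := by
  intro m hm
  obtain ⟨r, rfl⟩ : ∃ r, m = r + 1 := ⟨m - 1, by omega⟩
  have hr : 1 ≤ r := by omega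
  set B : ℝ := 2 * 4 ^ (r + 1) with hBdef
  have hB : 0 < B := by positivity
  obtain ⟨D1, hD1, k1⟩ := ts_card h r B hr hB
  obtain ⟨D2, hD2, k2⟩ := ts_card h (r + 1) B (by omega) hB
  obtain ⟨ex1, ex2⟩ := expo r hr
  have hz : ZS.Finite := zs_finite
  set K1 : ℝ := (ZS.ncard : ℝ) * ((2 * B + 1) ^ (r + 1) * D1) with hK1
  set K2 : ℝ := (2 * B + 1) ^ r * D2 with hK2
  have hK2p : 0 < K2 := by positivity
  have hK1p : 0 ≤ K1 := by positivity
  refine ⟨K1 + K2, by linarith, ?_⟩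
  intro q hq
  set Q : ℝ := Real.sqrt q with hQdef
  have hQ : 1 ≤ Q := by
    rw [hQdef, Real.one_le_sqrt]
    exact_mod_cast hq
  set S : Set (ℂ × (Fin (r + 1) → ℂ)) := {t | Cond (r + 1) q t.1 t.2} with hS
  set S1 : Set (ℂ × (Fin (r + 1) → ℂ)) := {t | t ∈ S ∧ t.1 ≠ -1} with hS1
  set S2 : Set (ℂ × (Fin (r + 1) → ℂ)) := {t | t ∈ S ∧ t.1 = -1} with hS2
  -- properties of the parts
  have pre : ∀ t ∈ S, ∀ j, ∃ k : ℤ, 2 * (t.2 j).re = k := by
    intro t ht j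
    obtain ⟨n, hn⟩ := ht.re j
    refine ⟨n, ?_⟩
    rw [Complex.add_conj] at hn
    exact_mod_cast hn
  have pim : ∀ t ∈ S, ∀ i j, ∃ k : ℤ, 2 * (t.2 i).im * (2 * (t.2 j).im) = k := by
    intro t ht i j
    obtain ⟨n, hn⟩ := ht.im i j
    refine ⟨-n, ?_⟩
    rw [Complex.sub_conj, Complex.sub_conj] at hn
    have h1 : (((2 * (t.2 i).im) * (2 * (t.2 j).im) : ℝ) : ℂ) = ((-n : ℝ) : ℂ) := by
      have h2 := Complex.I_mul_I
      push_cast at hn ⊢
      linear_combination (-1 : ℂ) * hn + (2 * ((t.2 i).im : ℂ)) * (2 * ((t.2 j).im : ℂ)) * h2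
    have h3 := Complex.ofReal_injective h1
    push_cast
    exact h3
  have bre : ∀ t ∈ S, ∀ j, |2 * (t.2 j).re| ≤ B * Q ^ ((j : ℕ) + 1) := by
    intro t ht j
    have h1 := ht.le j
    have h2 := Complex.abs_re_le_norm (t.2 j)
    rw [abs_mul, abs_two, hBdef, mul_assoc]
    linarith
  have bim : ∀ t ∈ S, ∀ j, |2 * (t.2 j).im| ≤ B * Q ^ ((j : ℕ) + 1) := by
    intro t ht j
    have h1 := ht.le j
    have h2 := Complex.abs_im_le_norm (t.2 j)
    rw [abs_mul, abs_two, hBdef, mul_assoc]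
    linarith
  -- first part
  obtain ⟨x1f, x1c⟩ := xs_card (r + 1) B Q hB hQ
  obtain ⟨x2f, x2c⟩ := xs_card r B Q hB hQ
  obtain ⟨t1f, t1c⟩ := k1 Q hQ
  obtain ⟨t2f, t2c⟩ := k2 Q hQ
  let f1 : ℂ × (Fin (r + 1) → ℂ) → ℂ × ((Fin (r + 1) → ℝ) × (Fin r → ℝ)) := fun t =>
    (t.1, (fun j => 2 * (t.2 j).re), fun j => 2 * (t.2 j.castSucc).im)
  let f2 : ℂ × (Fin (r + 1) → ℂ) → (Fin r → ℝ) × (Fin (r + 1) → ℝ) := fun t =>
    ((fun j => 2 * (t.2 j.castSucc).re), fun j => 2 * (t.2 j).im)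
  have m1 : ∀ t ∈ S1, f1 t ∈ ZS ×ˢ (XS (r + 1) B Q ×ˢ TS r B Q) := by
    rintro t ⟨ht, -⟩
    refine ⟨⟨ht.norm, ht.zre⟩, fun j => ⟨pre t ht j, bre t ht j⟩,
      fun i j => pim t ht i.castSucc j.castSucc, fun j => bim t ht j.castSucc⟩
  have m2 : ∀ t ∈ S2, f2 t ∈ XS r B Q ×ˢ TS (r + 1) B Q := by
    rintro t ⟨ht, -⟩
    exact ⟨fun j => ⟨pre t ht j.castSucc, bre t ht j.castSucc⟩,
      fun i j => pim t ht i j, fun j => bim t ht j⟩
  have i1 : Set.InjOn f1 S1 := by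
    rintro t ⟨ht, htn⟩ t' ⟨ht', -⟩ he
    have e1 : t.1 = t'.1 := congrArg (fun p => p.1) he
    have e2 : ∀ j, 2 * (t.2 j).re = 2 * (t'.2 j).re :=
      fun j => congrFun (congrArg (fun p => p.2.1) he) j
    have e3 : ∀ j : Fin r, 2 * (t.2 j.castSucc).im = 2 * (t'.2 j.castSucc).im :=
      fun j => congrFun (congrArg (fun p => p.2.2) he) j
    refine Prod.ext e1 (funext fun j => ?_)
    refine Fin.lastCases ?_ (fun j => ?_) j
    · have l1 := ht.last (Fin.last r) rfl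
      have l2 := ht'.last (Fin.last r) rfl
      rw [← e1] at l2
      have hre : (t.2 (Fin.last r) - t'.2 (Fin.last r)) +
          (starRingEnd ℂ) (t.2 (Fin.last r) - t'.2 (Fin.last r)) = 0 := by
        rw [Complex.add_conj, Complex.sub_re]
        have := e2 (Fin.last r)
        have h0 : 2 * ((t.2 (Fin.last r)).re - (t'.2 (Fin.last r)).re) = 0 := by linarith
        rw [h0]
        simp
      have hz2 : (1 + t.1) * (t.2 (Fin.last r) - t'.2 (Fin.last r)) = 0 := by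
        rw [map_sub] at hre
        linear_combination t.1 * hre + l1 - l2
      rcases mul_eq_zero.1 hz2 with h0 | h0
      · exact absurd (by linear_combination h0) htn
      · exact sub_eq_zero.1 h0
    · apply Complex.ext
      · linarith [e2 j.castSucc]
      · linarith [e3 j]
  have i2 : Set.InjOn f2 S2 := by
    rintro t ⟨ht, htn⟩ t' ⟨ht', htn'⟩ he
    have e2 : ∀ j : Fin r, 2 * (t.2 j.castSucc).re = 2 * (t'.2 j.castSucc).re :=
      fun j => congrFun (congrArg (fun p => p.1) he) j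
    have e3 : ∀ j, 2 * (t.2 j).im = 2 * (t'.2 j).im :=
      fun j => congrFun (congrArg (fun p => p.2) he) j
    refine Prod.ext (htn.trans htn'.symm) (funext fun j => ?_)
    refine Fin.lastCases ?_ (fun j => ?_) j
    · have l1 := ht.last (Fin.last r) rfl
      have l2 := ht'.last (Fin.last r) rfl
      rw [htn] at l1
      rw [htn'] at l2
      have g1 : (t.2 (Fin.last r)).re = 0 := by
        have := congrArg Complex.re l1
        simp at this
        linarith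
      have g2 : (t'.2 (Fin.last r)).re = 0 := by
        have := congrArg Complex.re l2
        simp at this
        linarith
      apply Complex.ext
      · rw [g1, g2]
      · linarith [e3 (Fin.last r)]
    · apply Complex.ext
      · linarith [e2 j]
      · linarith [e3 j.castSucc]
  have P1f : (ZS ×ˢ (XS (r + 1) B Q ×ˢ TS r B Q)).Finite := hz.prod (x1f.prod t1f)
  have P2f : (XS r B Q ×ˢ TS (r + 1) B Q).Finite := x2f.prod t2f
  have S1f : S1.Finite := Set.Finite.of_injOn m1 i1 P1f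
  have S2f : S2.Finite := Set.Finite.of_injOn m2 i2 P2f
  have c1 : S1.ncard ≤ ZS.ncard * ((XS (r + 1) B Q).ncard * (TS r B Q).ncard) := by
    have := Set.ncard_le_ncard_of_injOn f1 m1 i1 P1f
    rwa [Set.ncard_prod, Set.ncard_prod] at this
  have c2 : S2.ncard ≤ (XS r B Q).ncard * (TS (r + 1) B Q).ncard := by
    have := Set.ncard_le_ncard_of_injOn f2 m2 i2 P2f
    rwa [Set.ncard_prod] at this
  have hSU : S = S1 ∪ S2 := by
    ext t
    constructor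
    · intro ht
      by_cases h0 : t.1 = -1
      · exact Or.inr ⟨ht, h0⟩
      · exact Or.inl ⟨ht, h0⟩
    · rintro (ht | ht) <;> exact ht.1
  refine ⟨by rw [hSU]; exact S1f.union S2f, ?_⟩
  have c3 : S.ncard ≤ S1.ncard + S2.ncard := by
    rw [hSU]; exact Set.ncard_union_le S1 S2
  have c4 : (S.ncard : ℝ) ≤ (ZS.ncard : ℝ) * (((XS (r + 1) B Q).ncard : ℝ) *
      ((TS r B Q).ncard : ℝ)) + ((XS r B Q).ncard : ℝ) * ((TS (r + 1) B Q).ncard : ℝ) := by
    exact_mod_cast c3.trans (add_le_add c1 c2)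
  have hQ0 : 0 ≤ Q := by linarith
  have d1 : ((XS (r + 1) B Q).ncard : ℝ) * ((TS r B Q).ncard : ℝ) ≤
      ((2 * B + 1) ^ (r + 1) * D1) * Q ^ order (r + 1) := by
    calc ((XS (r + 1) B Q).ncard : ℝ) * ((TS r B Q).ncard : ℝ)
        ≤ ((2 * B + 1) ^ (r + 1) * Q ^ ((r + 1) * (r + 1 + 1) / 2)) *
          (D1 * Q ^ max (2 * r) (r * (r + 1) / 2)) :=
          mul_le_mul x1c t1c (Nat.cast_nonneg _) (by positivity)
      _ = ((2 * B + 1) ^ (r + 1) * D1) *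
          Q ^ ((r + 1) * (r + 1 + 1) / 2 + max (2 * r) (r * (r + 1) / 2)) := by
          rw [pow_add]; ring
      _ ≤ _ := mul_le_mul_of_nonneg_left (pow_le_pow_right₀ hQ ex1) (by positivity)
  have d2 : ((XS r B Q).ncard : ℝ) * ((TS (r + 1) B Q).ncard : ℝ) ≤
      ((2 * B + 1) ^ r * D2) * Q ^ order (r + 1) := by
    calc ((XS r B Q).ncard : ℝ) * ((TS (r + 1) B Q).ncard : ℝ)
        ≤ ((2 * B + 1) ^ r * Q ^ (r * (r + 1) / 2)) *
          (D2 * Q ^ max (2 * (r + 1)) ((r + 1) * (r + 1 + 1) / 2)) :=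
          mul_le_mul x2c t2c (Nat.cast_nonneg _) (by positivity)
      _ = ((2 * B + 1) ^ r * D2) *
          Q ^ (r * (r + 1) / 2 + max (2 * (r + 1)) ((r + 1) * (r + 1 + 1) / 2)) := by
          rw [pow_add]; ring
      _ ≤ _ := mul_le_mul_of_nonneg_left (pow_le_pow_right₀ hQ ex2) (by positivity)
  calc (S.ncard : ℝ) ≤ _ := c4
    _ ≤ (ZS.ncard : ℝ) * (((2 * B + 1) ^ (r + 1) * D1) * Q ^ order (r + 1)) +
        ((2 * B + 1) ^ r * D2) * Q ^ order (r + 1) :=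
        add_le_add (mul_le_mul_of_nonneg_left d1 (Nat.cast_nonneg _)) d2
    _ = (K1 + K2) * Q ^ order (r + 1) := by rw [hK1, hK2]; ring

end Pool.Agent.H271.WTw18
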