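import Pool.Agent.H857.WT.Core

/-!
# W4A: a factorisation pattern for `hpoly`
-/

set_option autoImplicit false

namespace Pool.Agent.H337.WT

open Module Polynomial Pool.Agent.H857.WT

theorem hpoly_coeff {R : Type} [CommRing R] (k : ℕ) (q : R) (u v : Fin k → R) (b : R) (n : ℕ) :
    (hpoly k q u v b).coeff n = (if n = 2 * k + 2 then 1 else 0) +
      ∑ j : Fin k, ((if n = 2 * k + 1 - (j : ℕ) then u j else 0) +
        (if n = (j : ℕ) + 1 then q ^ (k - (j : ℕ)) * v j else 0)) +
      (if n = k + 1 then b else 0) + (if n = 0 then q ^ (k + 1) else 0) := by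
  unfold hpoly
  rw [coeff_add, coeff_add, coeff_add, coeff_X_pow, finsetSum_coeff, coeff_C_mul_X_pow, coeff_C]
  simp only [coeff_add, coeff_C_mul_X_pow]

/-- a monic polynomial of degree `2 k + 2` with constant coefficient `q ^ (k + 1)` -/
theorem hpoly_eq {F : Type} [Field F] {k : ℕ} {q : F} (hq : q ≠ 0) {P : F[X]} (hP : P.Monic)
    (hd : P.natDegree = 2 * k + 2) (h0 : P.coeff 0 = q ^ (k + 1)) :
    hpoly k q (fun j => P.coeff (2 * k + 1 - (j : ℕ)))
      (fun j => P.coeff ((j : ℕ) + 1) / q ^ (k - (j : ℕ))) (P.coeff (k + 1)) = P := by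
  ext n
  rw [hpoly_coeff, Finset.sum_add_distrib]
  have h1 : ∑ j : Fin k, (if n = 2 * k + 1 - (j : ℕ) then P.coeff (2 * k + 1 - (j : ℕ)) else 0) =
      if k + 2 ≤ n ∧ n ≤ 2 * k + 1 then P.coeff n else 0 := by
    split_ifs with hc
    · rw [Finset.sum_eq_single (⟨2 * k + 1 - n, by omega⟩ : Fin k)]
      · have e : 2 * k + 1 - (2 * k + 1 - n) = n := by omega
        show (if n = 2 * k + 1 - (2 * k + 1 - n) then P.coeff (2 * k + 1 - (2 * k + 1 - n)) else 0) =
          P.coeff n
        rw [e, if_pos rfl]
      · intro j _ hj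
        rw [if_neg]
        intro hn
        apply hj
        ext
        show (j : ℕ) = 2 * k + 1 - n
        have := j.2
        omega
      · intro h
        exact absurd (Finset.mem_univ _) h
    · refine Finset.sum_eq_zero fun j _ => ?_
      rw [if_neg]
      intro hn
      have := j.2
      omega
  have h2 : ∑ j : Fin k, (if n = (j : ℕ) + 1 then
      q ^ (k - (j : ℕ)) * (P.coeff ((j : ℕ) + 1) / q ^ (k - (j : ℕ))) else 0) =
      if 1 ≤ n ∧ n ≤ k then P.coeff n else 0 := by
    have h3 : ∀ j : Fin k, q ^ (k - (j : ℕ)) * (P.coeff ((j : ℕ) + 1) / q ^ (k - (j : ℕ))) =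
        P.coeff ((j : ℕ) + 1) := fun j => mul_div_cancel₀ _ (pow_ne_zero _ hq)
    simp only [h3]
    split_ifs with hc
    · rw [Finset.sum_eq_single (⟨n - 1, by omega⟩ : Fin k)]
      · have e : n - 1 + 1 = n := by omega
        show (if n = n - 1 + 1 then P.coeff (n - 1 + 1) else 0) = P.coeff n
        rw [e, if_pos rfl]
      · intro j _ hj
        rw [if_neg]
        intro hn
        apply hj
        ext
        show (j : ℕ) = n - 1
        omega
      · intro h
        exact absurd (Finset.mem_univ _) h
    · refine Finset.sum_eq_zero fun j _ => ?_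
      rw [if_neg]
      intro hn
      have := j.2
      omega
  rw [h1, h2]
  have hlead : P.coeff (2 * k + 2) = 1 := by
    have := hP.coeff_natDegree
    rwa [hd] at this
  have hbig : 2 * k + 2 < n → P.coeff n = 0 := fun h =>
    coeff_eq_zero_of_natDegree_lt (by rw [hd]; exact h)
  rcases Nat.lt_trichotomy n (2 * k + 2) with h | h | h
  · rcases Nat.lt_trichotomy n (k + 1) with h' | h' | h'
    · rcases Nat.eq_zero_or_pos n with h'' | h''
      · subst h''
        rw [if_neg (by omega), if_neg (by omega), if_neg (by omega), if_neg (by omega), if_pos rfl,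
          h0]
        ring
      · rw [if_neg (by omega), if_neg (by omega), if_pos (by omega), if_neg (by omega),
          if_neg (by omega)]
        ring
    · subst h'
      rw [if_neg (by omega), if_neg (by omega), if_neg (by omega), if_pos rfl, if_neg (by omega)]
      ring
    · rw [if_neg (by omega), if_pos (by omega), if_neg (by omega), if_neg (by omega),
        if_neg (by omega)]
      ring
  · subst h
    rw [if_pos rfl, if_neg (by omega), if_neg (by omega), if_neg (by omega), if_neg (by omega),
      hlead]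
    ring
  · rw [if_neg (by omega), if_neg (by omega), if_neg (by omega), if_neg (by omega),
      if_neg (by omega), hbig h]
    ring

/-- irreducible polynomials of every degree over a prime field -/
theorem exists_irr (l : ℕ) [Fact l.Prime] (m : ℕ) (hm : m ≠ 0) :
    ∃ r : (ZMod l)[X], r.Monic ∧ Irreducible r ∧ r.natDegree = m := by
  obtain ⟨α, hα⟩ := Field.exists_primitive_element (ZMod l) (GaloisField l m)
  have hint : IsIntegral (ZMod l) α := Algebra.IsIntegral.isIntegral α
  refine ⟨minpoly (ZMod l) α, minpoly.monic hint, minpoly.irreducible hint, ?_⟩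
  rw [(Field.primitive_element_iff_minpoly_natDegree_eq (ZMod l) α).1 hα]
  exact GaloisField.finrank l hm

/-- **W4A.** -/
theorem w4a : W4A := by
  intro l _ _ k hk q hq
  obtain ⟨r, hr1, hr2, hr3⟩ := exists_irr l (2 * k + 1) (by omega)
  have hr0 : r.coeff 0 ≠ 0 := by
    intro h
    have h1 : IsRoot r 0 := by
      rw [IsRoot.def, ← coeff_zero_eq_eval_zero]
      exact h
    have h2 := degree_eq_one_of_irreducible_of_root hr2 h1
    have h3 : r.natDegree = 1 := natDegree_eq_of_degree_eq_some h2
    omega
  set c : ZMod l := -(q ^ (k + 1) / r.coeff 0) with hc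
  have hP : ((X - C c) * r).Monic := (monic_X_sub_C c).mul hr1
  have hd : ((X - C c) * r).natDegree = 2 * k + 2 := by
    rw [(monic_X_sub_C c).natDegree_mul hr1, natDegree_X_sub_C, hr3]
    omega
  have h0 : ((X - C c) * r).coeff 0 = q ^ (k + 1) := by
    rw [mul_coeff_zero, coeff_sub, coeff_X_zero, coeff_C_zero, hc]
    rw [zero_sub, neg_neg, div_mul_cancel₀ _ hr0]
  exact ⟨_, _, _, c, r, hr1, hr2, hr3, hpoly_eq hq hP hd h0⟩

end Pool.Agent.H337.WT
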