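import Pool.Agent.H857.WT.Core

/-!
# W4B: `hpoly` modulo `l` without roots
-/

set_option autoImplicit false

namespace Pool.Agent.H333.WT

open Module Polynomial Pool.Agent.H857.WT

theorem hpoly_eval {F : Type} [Field F] (k : ℕ) (q : F) (u v : Fin k → F) (b t : F) :
    (hpoly k q u v b).eval t = (hpoly k q u v 0).eval t + b * t ^ (k + 1) := by
  unfold hpoly
  simp only [eval_add, eval_mul, eval_C, eval_pow, eval_X]
  ring

theorem hpoly_eval_zero {F : Type} [Field F] (k : ℕ) (q : F) (u v : Fin k → F) :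
    (hpoly k q u v 0).eval 0 = q ^ (k + 1) := by
  unfold hpoly
  simp only [eval_add, eval_mul, eval_C, eval_pow, eval_X, eval_finsetSum]
  have h1 : ∀ j ∈ (Finset.univ : Finset (Fin k)),
      u j * (0 : F) ^ (2 * k + 1 - (j : ℕ)) + q ^ (k - (j : ℕ)) * v j * 0 ^ ((j : ℕ) + 1) = 0 := by
    intro j _
    have hj := j.2
    rw [zero_pow (by omega : 2 * k + 1 - (j : ℕ) ≠ 0), zero_pow (Nat.succ_ne_zero _), mul_zero,
      mul_zero, add_zero]
  rw [Finset.sum_congr rfl h1, Finset.sum_const_zero, zero_pow (by omega : 2 * k + 2 ≠ 0)]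
  ring

theorem w4b : W4B := by
  classical
  intro l hl k q hq u v
  obtain ⟨S, hS⟩ : ∃ S : Finset (ZMod l), S = ((Finset.univ : Finset (ZMod l)).erase 0).image
      (fun t => -(hpoly k q u v 0).eval t / t ^ (k + 1)) := ⟨_, rfl⟩
  have hcard : S.card < (Finset.univ : Finset (ZMod l)).card := by
    rw [hS]
    refine Finset.card_image_le.trans_lt ?_
    exact Finset.card_erase_lt_of_mem (Finset.mem_univ _)
  obtain ⟨b, _, hb⟩ := Finset.exists_mem_notMem_of_card_lt_card hcard
  refine ⟨b, ?_⟩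
  intro t ht
  rw [hpoly_eval] at ht
  by_cases h0 : t = 0
  · rw [h0, hpoly_eval_zero, zero_pow (Nat.succ_ne_zero _), mul_zero, add_zero] at ht
    exact hq (pow_eq_zero_iff (Nat.succ_ne_zero _) |>.1 ht)
  · refine hb ?_
    rw [hS, Finset.mem_image]
    refine ⟨t, Finset.mem_erase.2 ⟨h0, Finset.mem_univ _⟩, ?_⟩
    rw [div_eq_iff (pow_ne_zero _ h0)]
    linear_combination -ht

end Pool.Agent.H333.WT
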