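import Pool.Agent.H857.WT.Core

/-!
# W6: invariant groups of relations (helper113)
-/

set_option autoImplicit false

namespace Pool.Agent.H113.WTw6

open Pool.Agent.H857.WT

theorem w6 : W6 := by
  intro n R α β i₀ hα hβ hα0 hαt hβ0 e he hne
  have hαk : ∀ (k : ℕ) (e : Fin n → ℤ), e ∈ R → (fun i => e ((α ^ k) i)) ∈ R := by
    intro k
    induction k with
    | zero =>
      intro e he
      simpa using he
    | succ k ih =>
      intro e he
      have h := hα _ (ih e he)
      have h2 : (fun i => e ((α ^ (k + 1)) i)) = fun i => e ((α ^ k) (α i)) := by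
        funext i
        rw [pow_succ, Equiv.Perm.mul_apply]
      rw [h2]
      exact h
  have hn0 : (n : ℤ) ≠ 0 := by
    have : 0 < n := Fin.pos i₀
    omega
  -- an element whose value at `i₀` is not the mean value
  obtain ⟨e', he', hne'⟩ : ∃ e' ∈ R, (n : ℤ) * e' i₀ ≠ ∑ i, e' i := by
    by_contra hcon
    push Not at hcon
    have key : ∀ j, (n : ℤ) * e j = ∑ i, e i := by
      intro j
      by_cases hj : j = i₀
      · subst hj
        exact hcon e he
      · obtain ⟨k, hk⟩ := hαt (β i₀) j hβ0 hj
        have h1 := hcon (fun i => e ((α ^ k) (β i))) (hβ _ (hαk k e he))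
        rw [hk] at h1
        rw [h1]
        rw [Equiv.sum_comp β (fun i => e ((α ^ k) i)), Equiv.sum_comp (α ^ k) e]
    obtain ⟨i, j, hij⟩ := hne
    apply hij
    have h1 : (n : ℤ) * e i = (n : ℤ) * e j := by rw [key i, key j]
    exact mul_left_cancel₀ hn0 h1
  -- the mean value under `α`
  set T := orderOf α with hT
  have hT0 : 0 < T := orderOf_pos α
  have hT1 : α ^ T = 1 := pow_orderOf_eq_one α
  set E : Fin n → ℤ := fun i => ∑ k ∈ Finset.range T, e' ((α ^ k) i) with hE
  have hER : E ∈ R := by
    have h1 : E = ∑ k ∈ Finset.range T, (fun i => e' ((α ^ k) i)) := by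
      funext i
      rw [Finset.sum_apply]
    rw [h1]
    exact R.sum_mem fun k _ => hαk k e' he'
  have hEα : ∀ i, E (α i) = E i := by
    intro i
    have h1 : ∀ k, e' ((α ^ k) (α i)) = e' ((α ^ (k + 1)) i) := by
      intro k
      rw [pow_succ, Equiv.Perm.mul_apply]
    have h2 := Finset.sum_range_succ (fun k => e' ((α ^ k) i)) T
    have h3 := Finset.sum_range_succ' (fun k => e' ((α ^ k) i)) T
    rw [hT1] at h2
    rw [h2] at h3
    simp only [pow_zero] at h3
    show ∑ k ∈ Finset.range T, e' ((α ^ k) (α i)) = ∑ k ∈ Finset.range T, e' ((α ^ k) i)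
    rw [Finset.sum_congr rfl fun k _ => h1 k]
    linarith
  have hEk : ∀ (k : ℕ) i, E ((α ^ k) i) = E i := by
    intro k
    induction k with
    | zero => intro i; rfl
    | succ k ih =>
      intro i
      rw [pow_succ', Equiv.Perm.mul_apply, hEα, ih]
  set c := E (β i₀) with hc
  have hEc : ∀ j, j ≠ i₀ → E j = c := by
    intro j hj
    obtain ⟨k, hk⟩ := hαt (β i₀) j hβ0 hj
    rw [← hk, hEk]
  have hα0k : ∀ k : ℕ, (α ^ k) i₀ = i₀ := by
    intro k
    induction k with
    | zero => rfl
    | succ k ih => rw [pow_succ, Equiv.Perm.mul_apply, hα0, ih]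
  have hE0 : E i₀ = T * e' i₀ := by
    show ∑ k ∈ Finset.range T, e' ((α ^ k) i₀) = _
    rw [Finset.sum_congr rfl fun k _ => by rw [hα0k k], Finset.sum_const, Finset.card_range,
      nsmul_eq_mul]
  have hES : ∑ i, E i = T * ∑ i, e' i := by
    show ∑ i, ∑ k ∈ Finset.range T, e' ((α ^ k) i) = _
    rw [Finset.sum_comm, Finset.sum_congr rfl fun k _ => Equiv.sum_comp (α ^ k) e',
      Finset.sum_const, Finset.card_range, nsmul_eq_mul]
  have hb : E i₀ - c ≠ 0 := by
    intro h0
    apply hne'
    have h1 : ∑ i, (E i - c) = E i₀ - c := by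
      refine Finset.sum_eq_single i₀ (fun j _ hj => ?_) (fun h => absurd (Finset.mem_univ _) h)
      rw [hEc j hj, sub_self]
    rw [Finset.sum_sub_distrib, Finset.sum_const, Finset.card_univ, Fintype.card_fin, nsmul_eq_mul,
      h0, hES] at h1
    have h2 : c = T * e' i₀ := by rw [← hE0]; linarith
    rw [h2] at h1
    have hT' : (T : ℤ) ≠ 0 := by omega
    have h3 : (T : ℤ) * ((n : ℤ) * e' i₀) = T * ∑ i, e' i := by linarith
    exact mul_left_cancel₀ hT' h3
  set b := E i₀ - c with hbdef
  have hEb : ∀ i, E i = c + (Pi.single i₀ b : Fin n → ℤ) i := by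
    intro i
    by_cases hi : i = i₀
    · subst hi
      rw [Pi.single_eq_same, hbdef]
      ring
    · rw [hEc i hi, Pi.single_eq_of_ne hi, add_zero]
  -- the difference
  set j₀ := β.symm i₀ with hj0
  have hj0' : j₀ ≠ i₀ := by
    intro h
    apply hβ0
    have : β j₀ = i₀ := by rw [hj0, Equiv.apply_symm_apply]
    rwa [h] at this
  have hF : (Pi.single i₀ b - Pi.single j₀ b : Fin n → ℤ) ∈ R := by
    have h1 := R.sub_mem hER (hβ E hER)
    have h2 : (E - fun i => E (β i)) = (Pi.single i₀ b - Pi.single j₀ b : Fin n → ℤ) := by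
      funext i
      rw [Pi.sub_apply, Pi.sub_apply, hEb i, hEb (β i)]
      have h3 : (Pi.single i₀ b : Fin n → ℤ) (β i) = (Pi.single j₀ b : Fin n → ℤ) i := by
        by_cases hi : i = j₀
        · rw [hi, hj0, Equiv.apply_symm_apply, Pi.single_eq_same, Pi.single_eq_same]
        · rw [Pi.single_eq_of_ne hi, Pi.single_eq_of_ne]
          intro h4
          apply hi
          rw [hj0, ← h4, Equiv.symm_apply_apply]
      rw [h3]
      ring
    rw [← h2]
    exact h1
  have hG : ∀ j, (Pi.single i₀ b - Pi.single j b : Fin n → ℤ) ∈ R := by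
    intro j
    by_cases hj : j = i₀
    · rw [hj, sub_self]
      exact R.zero_mem
    · obtain ⟨k, hk⟩ := hαt j j₀ hj hj0'
      have h1 := hαk k _ hF
      have h2 : (fun i => (Pi.single i₀ b - Pi.single j₀ b : Fin n → ℤ) ((α ^ k) i)) =
          (Pi.single i₀ b - Pi.single j b : Fin n → ℤ) := by
        funext i
        rw [Pi.sub_apply, Pi.sub_apply]
        have h3 : (Pi.single i₀ b : Fin n → ℤ) ((α ^ k) i) = (Pi.single i₀ b : Fin n → ℤ) i := by
          by_cases hi : i = i₀
          · rw [hi, hα0k]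
          · rw [Pi.single_eq_of_ne hi, Pi.single_eq_of_ne]
            intro h4
            apply hi
            exact (α ^ k).injective (h4.trans (hα0k k).symm)
        have h4 : (Pi.single j₀ b : Fin n → ℤ) ((α ^ k) i) = (Pi.single j b : Fin n → ℤ) i := by
          by_cases hi : i = j
          · rw [hi, hk, Pi.single_eq_same, Pi.single_eq_same]
          · rw [Pi.single_eq_of_ne hi, Pi.single_eq_of_ne]
            intro h5
            apply hi
            exact (α ^ k).injective (h5.trans hk.symm)
        rw [h3, h4]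
      rw [h2] at h1
      exact h1
  refine ⟨b, hb, fun i j => ?_⟩
  have h1 := R.sub_mem (hG j) (hG i)
  have h2 : (Pi.single i₀ b - Pi.single j b - (Pi.single i₀ b - Pi.single i b) : Fin n → ℤ) =
      Pi.single i b - Pi.single j b := by ring
  rw [h2] at h1
  exact h1

end Pool.Agent.H113.WTw6
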